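import Pool.Agent.Helper43.ZT.RankOne

set_option autoImplicit false

/-!
# Powers of two dividing `n` for the subgroups of type `U(1, n; K)`
-/

open NormedSpace Filter Topology Matrix Module Pool.Agent.Helper17.CKF Pool.Agent.Helper40.CK
open Pool.Agent.Helper29.CKP Pool.Agent.Helper20.CKP Pool.Agent.Helper29.ZBU

namespace Pool.Agent.Helper43.ZT

theorem choose_two_pow (t m : ℕ) : (2 ^ t * m).choose (2 ^ t) ≡ m [MOD 2] := by
  induction t with
  | zero =>
    rw [pow_zero, one_mul, Nat.choose_one_right]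
  | succ t ih =>
    have _i : Fact (Nat.Prime 2) := ⟨Nat.prime_two⟩
    have h1 := Choose.choose_modEq_choose_mod_mul_choose_div_nat (n := 2 ^ (t + 1) * m)
      (k := 2 ^ (t + 1)) (p := 2)
    have h2 : 2 ^ (t + 1) * m = 2 * (2 ^ t * m) := by ring
    have h3 : 2 ^ (t + 1) = 2 * 2 ^ t := by ring
    rw [h2, h3, Nat.mul_mod_right, Nat.mul_mod_right, Nat.choose_self, one_mul,
      Nat.mul_div_cancel_left _ (by norm_num), Nat.mul_div_cancel_left _ (by norm_num)] at h1
    rw [h2, h3]
    exact h1.trans ih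

theorem two_pow_dvd_of_even {m R : ℕ} (h : ∀ a, 1 ≤ a → a < R → Even (m.choose a)) (t : ℕ)
    (ht : 2 ^ t < 2 * R) : 2 ^ t ∣ m := by
  induction t with
  | zero => rw [pow_zero]; exact one_dvd m
  | succ t ih =>
    have h1 : 2 ^ (t + 1) = 2 * 2 ^ t := by ring
    have h0 : 0 < 2 ^ t := by positivity
    obtain ⟨m', rfl⟩ := ih (by omega)
    have h2 := h (2 ^ t) h0 (by omega)
    have h3 := choose_two_pow t m'
    rw [Nat.even_iff] at h2
    have h4 : m' % 2 = 0 := by
      rw [← h2]
      exact h3.symm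
    obtain ⟨k, hk⟩ := Nat.dvd_of_mod_eq_zero h4
    exact ⟨k, by rw [hk]; ring⟩

/-- If the space `p` of `H` is that of a group `U(1, n; K)`, then every power of two less than
`2 r` divides `n`. -/
theorem two_pow_dvd {K : Type} [RCLike K] {r n N : ℕ} {G : Subgroup (GL (Fin N) ℝ)}
    {P : Matrix (Fin r) (Fin n) K →ₗ[ℝ] Matrix (Fin N) (Fin N) ℝ} {H : Subgroup G}
    (D : PData K r n G P) (hH : IsReductive (H.map G.subtype)) (had : AdmitsCocompact H)
    {u : Fin r → K} (hu : u ≠ 0)
    (h : ∀ B, B ∈ (pSpace (H.map G.subtype)).comap P ↔ ∃ x : Fin n → K, B = vecMulVec u x)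
    (t : ℕ) (ht : 2 ^ t < 2 * r) : 2 ^ t ∣ n := by
  have h1 : ∀ a, 1 ≤ a → a < r * finrank ℝ K → Even ((n * finrank ℝ K).choose a) :=
    fun a ha har => even_choose D hH had hu h ha har
  have hd12 : finrank ℝ K = 1 ∨ finrank ℝ K = 2 := by
    rcases RCLike.I_eq_zero_or_im_I_eq_one (K := K) with hI | hI
    · left
      rw [(RCLike.realLinearIsometryEquiv hI).toLinearEquiv.finrank_eq]
      exact Module.finrank_self ℝ
    · right
      exact finrank_K hI
  rcases hd12 with hd | hd
  · rw [hd, mul_one, mul_one] at h1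
    exact two_pow_dvd_of_even h1 t ht
  · rw [hd] at h1
    have h2 := two_pow_dvd_of_even h1 (t + 1) (by
      have : 2 ^ (t + 1) = 2 * 2 ^ t := by ring
      omega)
    rw [pow_succ] at h2
    exact Nat.dvd_of_mul_dvd_mul_right (by norm_num) h2

/-- The same for `U(r, n)`: the binomial coefficients `n.choose i`, `1 ≤ i < r`, are even. -/
theorem even_choose_upqK {K : Type} [RCLike K] {r n : ℕ} {H : Subgroup (UpqK K r n)}
    (hH : IsReductive (H.map (UpqK K r n).subtype)) (had : AdmitsCocompact H) {u : Fin r → K}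
    (hu : u ≠ 0) (h : ∀ B, B ∈ (pSpace (H.map (UpqK K r n).subtype)).comap (pcK K r n) ↔
      ∃ x : Fin n → K, B = vecMulVec u x) {i : ℕ} (hi : 1 ≤ i) (hir : i + 1 ≤ r) :
    Even (n.choose i) := by
  have h1 : ∀ a, 1 ≤ a → a < r * finrank ℝ K → Even ((n * finrank ℝ K).choose a) :=
    fun a ha har => even_choose (pdataK K r n) hH had hu h ha har
  have hd12 : finrank ℝ K = 1 ∨ finrank ℝ K = 2 := by
    rcases RCLike.I_eq_zero_or_im_I_eq_one (K := K) with hI | hI
    · left
      rw [(RCLike.realLinearIsometryEquiv hI).toLinearEquiv.finrank_eq]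
      exact Module.finrank_self ℝ
    · right
      exact finrank_K hI
  rcases hd12 with hd | hd
  · rw [hd, mul_one, mul_one] at h1
    exact h1 i hi (by omega)
  · rw [hd] at h1
    have h2 := h1 (2 * i) (by omega) (by omega)
    have _i : Fact (Nat.Prime 2) := ⟨Nat.prime_two⟩
    have h3 := Choose.choose_modEq_choose_mod_mul_choose_div_nat (n := n * 2) (k := 2 * i) (p := 2)
    rw [Nat.mul_mod_left, Nat.mul_mod_right, Nat.choose_self, one_mul,
      Nat.mul_div_cancel _ (by norm_num), Nat.mul_div_cancel_left _ (by norm_num)] at h3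
    rw [Nat.even_iff] at h2 ⊢
    rw [← h2]
    exact h3.symm

/-- Every power of two less than `2 r` divides `n`. -/
theorem two_pow_dvd_upqK {K : Type} [RCLike K] {r n : ℕ} {H : Subgroup (UpqK K r n)}
    (hH : IsReductive (H.map (UpqK K r n).subtype)) (had : AdmitsCocompact H) {u : Fin r → K}
    (hu : u ≠ 0) (h : ∀ B, B ∈ (pSpace (H.map (UpqK K r n).subtype)).comap (pcK K r n) ↔
      ∃ x : Fin n → K, B = vecMulVec u x) (t : ℕ) (ht : 2 ^ t < 2 * r) : 2 ^ t ∣ n :=
  two_pow_dvd (pdataK K r n) hH had hu h t ht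

end Pool.Agent.Helper43.ZT
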