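import Pool.Agent.Helper43.ZT.Count
import Pool.Agent.Helper29.ZBU.Cont

set_option autoImplicit false

/-!
# The twisted theorem of Borsuk and Ulam on the cube
-/

namespace Pool.Agent.Helper43.ZT

open Finset Pool.Agent.Helper29.ZBU

variable {κ ι : Type} [Fintype κ] [DecidableEq κ] [DecidableEq ι] [Fintype ι]

/-- The identification `i` of the boundary. -/
def negT (β : κ → Option ι) (tw : ι → Bool) (i : Option ι) (x : κ → ℝ) : κ → ℝ :=
  fun k => if tb tw i (β k) = true then -x k else x k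

theorem pt_negA (β : κ → Option ι) (tw : ι → Bool) (N : ℕ) (i : Option ι) (x : κ → ℤ) :
    pt N (negA (tA β tw) i x) = negT β tw i (pt N x) := by
  funext k
  unfold pt negA negT tA
  by_cases h : tb tw i (β k) = true
  · rw [if_pos h, if_pos h]
    push_cast
    ring
  · rw [if_neg h, if_neg h]

/-- The number of the assignments of the last `e` equations to the blocks `some i`. -/
def cntT {e : ℕ} (β : κ → Option ι) (χ : Fin e → Option ι → ZMod 2) : ℕ :=
  (univ.filter fun σ : Fin e → ι => (∀ j, χ j (some (σ j)) = 1) ∧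
      ∀ i, (univ.filter fun j => σ j = i).card = (univ.filter fun k => β k = some i).card).card

/-- The twisted theorem of Borsuk and Ulam, on the cube. -/
theorem zero_cubeT {m e : ℕ} (β : κ → Option ι) (tw : ι → Bool)
    (χ : Fin (m + e) → Option ι → ZMod 2)
    (hd : Fintype.card κ = m + e) (hm : (univ.filter fun k => β k = none).card = m)
    (hχ : ∀ j, χ (Fin.castAdd e j) = tchi tw none)
    (hodd : (cntT β (fun j => χ (Fin.natAdd m j)) : ZMod 2) ≠ 0) (f : (κ → ℝ) → Fin (m + e) → ℝ)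
    (hf : ContinuousOn f (Set.Icc (fun _ => (-1 : ℝ)) (fun _ => 1)))
    (hb : ∀ x ∈ Set.Icc (fun _ : κ => (-1 : ℝ)) (fun _ => 1), ∀ i, (∃ k, β k = i ∧ |x k| = 1) →
      ∀ j, f (negT β tw i x) j = sgn (χ j i) * f x j) :
    ∃ x ∈ Set.Icc (fun _ : κ => (-1 : ℝ)) (fun _ => 1), f x = 0 := by
  classical
  by_contra hc
  push Not at hc
  have hK : IsCompact (Set.Icc (fun _ : κ => (-1 : ℝ)) (fun _ => 1)) := isCompact_Icc
  have hne : (Set.Icc (fun _ : κ => (-1 : ℝ)) (fun _ => 1)).Nonempty :=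
    ⟨fun _ => 0, fun _ => by norm_num, fun _ => by norm_num⟩
  obtain ⟨x₀, hx₀, hmin⟩ := hK.exists_isMinOn hne hf.norm
  have hδ : 0 < ‖f x₀‖ := norm_pos_iff.mpr (hc x₀ hx₀)
  have hδ' : ∀ x ∈ Set.Icc (fun _ : κ => (-1 : ℝ)) (fun _ => 1), ‖f x₀‖ ≤ ‖f x‖ :=
    fun x hx => hmin hx
  have huc := hK.uniformContinuousOn_of_continuous hf
  rw [Metric.uniformContinuousOn_iff] at huc
  obtain ⟨δ, hδ0, hδ1⟩ := huc (‖f x₀‖ / 2) (by positivity)
  obtain ⟨n, hn⟩ := exists_nat_gt (1 / δ)
  let N : ℕ := n + 1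
  have hN : 0 < N := Nat.succ_pos n
  have hN' : (0 : ℝ) < N := by exact_mod_cast hN
  have hNδ : 1 / (N : ℝ) < δ := by
    have h1 : 1 / δ < N := by
      refine hn.trans ?_
      show (n : ℝ) < ((n + 1 : ℕ) : ℝ)
      push_cast
      linarith
    rw [div_lt_iff₀ hδ0] at h1
    rw [div_lt_iff₀ hN']
    linarith
  let s : Fin (m + e) → (κ → ℤ) → ZMod 2 := fun j x =>
    if f (pt N x) j < 0 then 1 else if 0 < f (pt N x) j then 0 else ∑ i, χ j i * ef β tw N i x
  -- points of the cube
  let s' : Fin (m + e) → (κ → ℤ) → ZMod 2 := fun j x =>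
    if pt N x ∈ Set.Icc (fun _ : κ => (-1 : ℝ)) (fun _ => 1) then s j x else
      ∑ i, χ j i * ef β tw N i x
  have hsum : ∀ j i' x, Bd β N i' x → ∑ i, χ j i * ef β tw N i (negA (tA β tw) i' x) =
      ∑ i, χ j i * ef β tw N i x + χ j i' := by
    intro j i' x hx
    have h2 : ∀ i, χ j i * ef β tw N i (negA (tA β tw) i' x) = χ j i * ef β tw N i x +
        if i = i' then χ j i' else 0 := by
      intro i
      have h3 := eqv_ef β tw hN i i' x hx
      rw [h3, mul_add]
      congr 1
      by_cases hi : i = i'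
      · subst hi
        rw [Pi.single_eq_same, if_pos rfl, mul_one]
      · rw [Pi.single_eq_of_ne (fun h => hi h.symm), if_neg hi, mul_zero]
    simp only [h2]
    rw [Finset.sum_add_distrib, Finset.sum_ite_eq' univ i', if_pos (mem_univ _)]
  have hmemneg : ∀ i x, negT β tw i x ∈ Set.Icc (fun _ : κ => (-1 : ℝ)) (fun _ => 1) ↔
      x ∈ Set.Icc (fun _ : κ => (-1 : ℝ)) (fun _ => 1) := by
    intro i x
    have h1 : ∀ y : κ → ℝ, y ∈ Set.Icc (fun _ : κ => (-1 : ℝ)) (fun _ => 1) ↔ ∀ k, |y k| ≤ 1 := by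
      intro y
      rw [Set.mem_Icc, Pi.le_def, Pi.le_def]
      constructor
      · intro h k
        exact abs_le.mpr ⟨h.1 k, h.2 k⟩
      · intro h
        exact ⟨fun k => (abs_le.mp (h k)).1, fun k => (abs_le.mp (h k)).2⟩
    rw [h1, h1]
    refine forall_congr' fun k => ?_
    unfold negT
    by_cases h : tb tw i (β k) = true
    · rw [if_pos h, abs_neg]
    · rw [if_neg h]
  have hs : ∀ j, EqvA β (tA β tw) N (χ j) (s' j) := by
    intro j i x hx
    show (if pt N (negA (tA β tw) i x) ∈ _ then s j (negA (tA β tw) i x) else ∑ i', χ j i' * ef β tw N i' (negA (tA β tw) i x)) =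
      (if pt N x ∈ _ then s j x else ∑ i, χ j i * ef β tw N i x) + χ j i
    rw [pt_negA]
    by_cases hm : pt N x ∈ Set.Icc (fun _ : κ => (-1 : ℝ)) (fun _ => 1)
    · rw [if_pos ((hmemneg i _).mpr hm), if_pos hm]
      show (if f (pt N (negA (tA β tw) i x)) j < 0 then 1 else if 0 < f (pt N (negA (tA β tw) i x)) j then 0 else
        ∑ i', χ j i' * ef β tw N i' (negA (tA β tw) i x)) = (if f (pt N x) j < 0 then 1 else
          if 0 < f (pt N x) j then 0 else ∑ i, χ j i * ef β tw N i x) + χ j i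
      rw [pt_negA, hb _ hm i (pt_Bd hN hx) j, hsum j i x hx]
      have h01 : ∀ a : ZMod 2, a = 0 ∨ a = 1 := by decide
      rcases h01 (χ j i) with h0 | h0
      · rw [h0]
        have : sgn (0 : ZMod 2) = 1 := if_pos rfl
        rw [this, one_mul, add_zero, add_zero]
      · rw [h0]
        have : sgn (1 : ZMod 2) = -1 := if_neg (by decide)
        rw [this]
        rcases lt_trichotomy (f (pt N x) j) 0 with h | h | h
        · rw [if_neg (by linarith), if_pos (by linarith), if_pos h]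
          decide
        · rw [if_neg (by linarith), if_neg (by linarith), if_neg (by linarith), if_neg (by linarith)]
        · rw [if_pos (by linarith), if_neg (by linarith), if_pos h]
          decide
    · rw [if_neg (fun h => hm ((hmemneg i _).mp h)), if_neg hm, hsum j i x hx]
  have hT := T_countA β tw hN hd hm (χ := fun j => χ (Fin.natAdd m j))
    (fun j => by rw [← hχ j]; exact hs _) (fun j => hs _)
  have hT' : T N s' ≠ 0 := by
    rw [hT]
    exact hodd
  rw [← T_eq] at hT'
  obtain ⟨τ, hτ, hτ'⟩ := Finset.exists_ne_zero_of_sum_ne_zero hT'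
  rw [Finset.prod_ne_zero_iff] at hτ'
  have hmem : ∀ l, pt N (vtx τ l) ∈ Set.Icc (fun _ : κ => (-1 : ℝ)) (fun _ => 1) := by
    intro l
    have h1 : ∀ k, |pt N (vtx τ l) k| ≤ 1 := by
      intro k
      unfold pt
      rw [abs_div, abs_of_pos (show (0 : ℝ) < 2 * N by positivity), div_le_one (by positivity)]
      have := vtx_abs hτ l k
      have h2 : ((|vtx τ l k| : ℤ) : ℝ) ≤ ((2 * (N : ℤ) : ℤ) : ℝ) := by exact_mod_cast this
      push_cast at h2
      exact h2
    exact ⟨fun k => (abs_le.mp (h1 k)).1, fun k => (abs_le.mp (h1 k)).2⟩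
  have hdist : ∀ l l', dist (f (pt N (vtx τ l))) (f (pt N (vtx τ l'))) < ‖f x₀‖ / 2 := by
    intro l l'
    refine hδ1 _ (hmem l) _ (hmem l') ?_
    refine lt_of_le_of_lt ?_ hNδ
    rw [dist_pi_le_iff (by positivity)]
    intro k
    rw [Real.dist_eq]
    unfold pt
    rw [← sub_div, abs_div, abs_of_pos (show (0 : ℝ) < 2 * N by positivity)]
    have h1 := vtx_sub τ l l' k
    have h2 : ((|vtx τ l k - vtx τ l' k| : ℤ) : ℝ) ≤ 1 := by exact_mod_cast h1
    push_cast at h2
    refine (div_le_div_of_nonneg_right h2 (by positivity)).trans ?_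
    exact one_div_le_one_div_of_le hN' (by linarith)
  have hsmall : ∀ j : Fin (m + e), |f (pt N (vtx τ 0)) j| < ‖f x₀‖ := by
    intro j
    have h1 := hτ' j (mem_univ _)
    have h2 : ∀ l, s' j (vtx τ l) = s j (vtx τ l) := fun l => if_pos (hmem l)
    rw [h2, h2] at h1
    have h3 : s j (vtx τ j) ≠ s j (vtx τ (j + 1)) := by
      intro h
      rw [h] at h1
      exact h1 (CharTwo.add_self_eq_zero _)
    have h4 : f (pt N (vtx τ j)) j * f (pt N (vtx τ (j + 1))) j ≤ 0 := by
      by_contra hp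
      push Not at hp
      apply h3
      show (if f (pt N (vtx τ j)) j < 0 then 1 else if 0 < f (pt N (vtx τ j)) j then 0 else
        ∑ i, χ j i * ef β tw N i (vtx τ j)) = (if f (pt N (vtx τ (j + 1))) j < 0 then 1 else
        if 0 < f (pt N (vtx τ (j + 1))) j then 0 else ∑ i, χ j i * ef β tw N i (vtx τ (j + 1)))
      rcases lt_trichotomy (f (pt N (vtx τ j)) j) 0 with h | h | h
      · have h' : f (pt N (vtx τ (j + 1))) j < 0 := by
          by_contra hh
          push Not at hh
          have := mul_nonpos_of_nonpos_of_nonneg h.le hh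
          linarith
        rw [if_pos h, if_pos h']
      · rw [h, zero_mul] at hp
        exact absurd hp (lt_irrefl _)
      · have h' : 0 < f (pt N (vtx τ (j + 1))) j := by
          by_contra hh
          push Not at hh
          have := mul_nonpos_of_nonneg_of_nonpos h.le hh
          linarith
        rw [if_neg (by linarith), if_pos h, if_neg (by linarith), if_pos h']
    have h5 : |f (pt N (vtx τ j)) j| ≤ |f (pt N (vtx τ j)) j - f (pt N (vtx τ (j + 1))) j| := by
      rw [← sq_le_sq]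
      nlinarith [sq_nonneg (f (pt N (vtx τ (j + 1))) j)]
    have h6 : ∀ l l', |f (pt N (vtx τ l)) j - f (pt N (vtx τ l')) j| < ‖f x₀‖ / 2 := by
      intro l l'
      have := (dist_le_pi_dist (f (pt N (vtx τ l))) (f (pt N (vtx τ l'))) j).trans_lt (hdist l l')
      rwa [Real.dist_eq] at this
    calc |f (pt N (vtx τ 0)) j|
        = |(f (pt N (vtx τ 0)) j - f (pt N (vtx τ j)) j) + f (pt N (vtx τ j)) j| := by
          rw [sub_add_cancel]
      _ ≤ |f (pt N (vtx τ 0)) j - f (pt N (vtx τ j)) j| + |f (pt N (vtx τ j)) j| := abs_add_le _ _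
      _ < ‖f x₀‖ / 2 + ‖f x₀‖ / 2 := add_lt_add (h6 0 j) (h5.trans_lt (h6 j (j + 1)))
      _ = ‖f x₀‖ := add_halves _
  have h7 : ‖f (pt N (vtx τ 0))‖ < ‖f x₀‖ := by
    rw [pi_norm_lt_iff hδ]
    exact hsmall
  exact absurd (hδ' _ (hmem 0)) (not_le.mpr h7)

end Pool.Agent.Helper43.ZT
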