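import Pool.Agent.Helper29.ZBU.Count

set_option autoImplicit false

/-!
# Sums over flags: a twisted identification of the boundary
-/

namespace Pool.Agent.Helper43.ZT

open Finset Pool.Agent.Helper29.ZBU

variable {κ ι : Type} [Fintype κ] [DecidableEq κ] {d : ℕ}

/-- The negation of the coordinates `k` with `A i k`. -/
def negA (A : ι → κ → Bool) (i : ι) (x : κ → ℤ) : κ → ℤ := fun k => if A i k = true then -x k else x k

/-- A sum over the flags of a function which does not depend on the cell of dimension `d` and is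
invariant for the identifications of the boundary is zero. -/
theorem sum_topA {N : ℕ} (hd : 0 < d) (β : κ → ι) (A : ι → κ → Bool)
    (hA : ∀ k, A (β k) k = true) (g : (ℕ → κ → ℤ) → ZMod 2)
    (hg : ∀ v w, (∀ j, j < d → v j = w j) → g v = g w)
    (hg' : ∀ v i, (∀ j, j < d → Bd β N i (v j)) → g (fun j => negA A i (v j)) = g v) :
    ∑ τ ∈ flags κ d N, g (vtx τ) = 0 := by
  classical
  let last : Fin d := ⟨d - 1, by omega⟩
  let kk : Flag κ d → κ := fun τ => τ.2.1 last
  let ex : Flag κ d → Prop := fun τ => |τ.1 (kk τ) + bi (τ.2.2 (kk τ))| = (N : ℤ)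
  let fl : Flag κ d → Flag κ d := fun τ =>
    (Function.update τ.1 (kk τ) (τ.1 (kk τ) + (2 * bi (τ.2.2 (kk τ)) - 1)), τ.2.1,
      Function.update τ.2.2 (kk τ) (!τ.2.2 (kk τ)))
  let ng : Flag κ d → Flag κ d := fun τ =>
    (fun k => if A (β (kk τ)) k = true then -τ.1 k - 1 else τ.1 k, τ.2.1,
      fun k => if A (β (kk τ)) k = true then !τ.2.2 k else τ.2.2 k)
  let inv : Flag κ d → Flag κ d := fun τ => if ex τ then ng τ else fl τ
  have hbi : ∀ b : Bool, bi (!b) = 1 - bi b := by
    intro b
    cases b <;> simp [bi]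
  have hkng : ∀ τ, kk (ng τ) = kk τ := fun τ => rfl
  have hkfl : ∀ τ, kk (fl τ) = kk τ := fun τ => rfl
  have hexng : ∀ τ, ex (ng τ) ↔ ex τ := by
    intro τ
    show |(if A (β (kk τ)) (kk τ) = true then -τ.1 (kk τ) - 1 else τ.1 (kk τ)) +
      bi (if A (β (kk τ)) (kk τ) = true then !τ.2.2 (kk τ) else τ.2.2 (kk τ))| = (N : ℤ) ↔
      |τ.1 (kk τ) + bi (τ.2.2 (kk τ))| = (N : ℤ)
    rw [if_pos (hA _), if_pos (hA _), hbi, ← abs_neg]
    have : -(-τ.1 (kk τ) - 1 + (1 - bi (τ.2.2 (kk τ)))) = τ.1 (kk τ) + bi (τ.2.2 (kk τ)) := by ring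
    rw [this]
  have hexfl : ∀ τ, ex (fl τ) ↔ ex τ := by
    intro τ
    show |Function.update τ.1 (kk τ) (τ.1 (kk τ) + (2 * bi (τ.2.2 (kk τ)) - 1)) (kk τ) +
      bi (Function.update τ.2.2 (kk τ) (!τ.2.2 (kk τ)) (kk τ))| = (N : ℤ) ↔
      |τ.1 (kk τ) + bi (τ.2.2 (kk τ))| = (N : ℤ)
    rw [Function.update_self, Function.update_self, hbi]
    have : τ.1 (kk τ) + (2 * bi (τ.2.2 (kk τ)) - 1) + (1 - bi (τ.2.2 (kk τ))) =
      τ.1 (kk τ) + bi (τ.2.2 (kk τ)) := by ring
    rw [this]
  refine Finset.sum_involution (fun τ _ => inv τ) ?_ ?_ ?_ ?_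
  · intro τ _
    have h1 : g (vtx (inv τ)) = g (vtx τ) := by
      by_cases h : ex τ
      · show g (vtx (if ex τ then ng τ else fl τ)) = _
        rw [if_pos h]
        have h2 : vtx (ng τ) = fun j => negA A (β (kk τ)) (vtx τ j) := by
          funext j k
          show (if ((τ.2.1.symm k : Fin d) : ℕ) < j then
              2 * (if A (β (kk τ)) k = true then -τ.1 k - 1 else τ.1 k) + 1 else
              2 * ((if A (β (kk τ)) k = true then -τ.1 k - 1 else τ.1 k) +
                bi (if A (β (kk τ)) k = true then !τ.2.2 k else τ.2.2 k))) =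
            if A (β (kk τ)) k = true then -(if ((τ.2.1.symm k : Fin d) : ℕ) < j then 2 * τ.1 k + 1 else
              2 * (τ.1 k + bi (τ.2.2 k))) else (if ((τ.2.1.symm k : Fin d) : ℕ) < j then
                2 * τ.1 k + 1 else 2 * (τ.1 k + bi (τ.2.2 k)))
          by_cases hb : A (β (kk τ)) k = true
          · simp only [hb, if_true]
            split_ifs
            · ring
            · rw [hbi]
              ring
          · simp only [if_neg hb]
        rw [h2]
        refine hg' _ _ fun j hj => ⟨kk τ, rfl, ?_⟩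
        have h3 : ¬ ((τ.2.1.symm (kk τ) : Fin d) : ℕ) < j := by
          show ¬ ((τ.2.1.symm (τ.2.1 last) : Fin d) : ℕ) < j
          rw [Equiv.symm_apply_apply]
          show ¬ d - 1 < j
          omega
        show |if ((τ.2.1.symm (kk τ) : Fin d) : ℕ) < j then _ else
          2 * (τ.1 (kk τ) + bi (τ.2.2 (kk τ)))| = _
        rw [if_neg h3, abs_mul, h]
        rfl
      · show g (vtx (if ex τ then ng τ else fl τ)) = _
        rw [if_neg h]
        refine hg _ _ fun j hj => ?_
        funext k
        by_cases hk : k = kk τ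
        · subst hk
          have h3 : ¬ ((τ.2.1.symm (kk τ) : Fin d) : ℕ) < j := by
            show ¬ ((τ.2.1.symm (τ.2.1 last) : Fin d) : ℕ) < j
            rw [Equiv.symm_apply_apply]
            show ¬ d - 1 < j
            omega
          show (if ((τ.2.1.symm (kk τ) : Fin d) : ℕ) < j then _ else
            2 * (Function.update τ.1 (kk τ) (τ.1 (kk τ) + (2 * bi (τ.2.2 (kk τ)) - 1)) (kk τ) +
              bi (Function.update τ.2.2 (kk τ) (!τ.2.2 (kk τ)) (kk τ)))) =
            (if ((τ.2.1.symm (kk τ) : Fin d) : ℕ) < j then _ else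
              2 * (τ.1 (kk τ) + bi (τ.2.2 (kk τ))))
          rw [if_neg h3, if_neg h3, Function.update_self, Function.update_self, hbi]
          ring
        · show (if ((τ.2.1.symm k : Fin d) : ℕ) < j then
            2 * (Function.update τ.1 (kk τ) _ k) + 1 else
            2 * (Function.update τ.1 (kk τ) _ k + bi (Function.update τ.2.2 (kk τ) _ k))) = _
          rw [Function.update_of_ne hk, Function.update_of_ne hk]
          rfl
    rw [h1]
    exact CharTwo.add_self_eq_zero _
  · intro τ _ _ h
    have h1 := congrFun (congrArg (fun σ : Flag κ d => σ.2.2) h) (kk τ)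
    by_cases he : ex τ
    · simp [inv, he, ng, hA (kk τ)] at h1
    · simp [inv, he, fl] at h1
  · intro τ hτ
    rw [mem_flags] at hτ ⊢
    intro k
    by_cases he : ex τ
    · have h2 : inv τ = ng τ := if_pos he
      rw [h2]
      show -(N : ℤ) ≤ (if A (β (kk τ)) k = true then -τ.1 k - 1 else τ.1 k) ∧
        (if A (β (kk τ)) k = true then -τ.1 k - 1 else τ.1 k) < N
      have := hτ k
      split_ifs
      · omega
      · exact this
    · have h2 : inv τ = fl τ := if_neg he
      rw [h2]
      show -(N : ℤ) ≤ Function.update τ.1 (kk τ) _ k ∧ Function.update τ.1 (kk τ) _ k < N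
      by_cases hk : k = kk τ
      · subst hk
        rw [Function.update_self]
        have h3 := hτ (kk τ)
        have h4 : |τ.1 (kk τ) + bi (τ.2.2 (kk τ))| ≠ (N : ℤ) := he
        have h5 : bi (τ.2.2 (kk τ)) = 0 ∨ bi (τ.2.2 (kk τ)) = 1 := by
          cases τ.2.2 (kk τ) <;> simp [bi]
        rcases h5 with h5 | h5
        · rw [h5, add_zero] at h4
          rw [h5]
          have h6 : τ.1 (kk τ) ≠ -(N : ℤ) := by
            intro h
            rw [h, abs_neg] at h4
            exact h4 (abs_of_nonneg (Int.natCast_nonneg N))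
          omega
        · rw [h5] at h4 ⊢
          have h6 : τ.1 (kk τ) + 1 ≠ (N : ℤ) := by
            intro h
            rw [h] at h4
            exact h4 (abs_of_nonneg (Int.natCast_nonneg N))
          omega
      · rw [Function.update_of_ne hk]
        exact hτ k
  · intro τ _
    show inv (inv τ) = τ
    by_cases he : ex τ
    · have h2 : inv τ = ng τ := if_pos he
      have h3 : inv (ng τ) = ng (ng τ) := if_pos ((hexng τ).2 he)
      rw [h2, h3]
      refine Prod.ext ?_ (Prod.ext rfl ?_)
      · funext k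
        show (if A (β (kk τ)) k = true then -(if A (β (kk τ)) k = true then -τ.1 k - 1 else τ.1 k) - 1 else
          (if A (β (kk τ)) k = true then -τ.1 k - 1 else τ.1 k)) = τ.1 k
        split_ifs
        · ring
        · rfl
      · funext k
        show (if A (β (kk τ)) k = true then !(if A (β (kk τ)) k = true then !τ.2.2 k else τ.2.2 k) else
          (if A (β (kk τ)) k = true then !τ.2.2 k else τ.2.2 k)) = τ.2.2 k
        split_ifs
        · simp
        · rfl
    · have h2 : inv τ = fl τ := if_neg he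
      have h3 : inv (fl τ) = fl (fl τ) := if_neg fun h => he ((hexfl τ).1 h)
      rw [h2, h3]
      refine Prod.ext ?_ (Prod.ext rfl ?_)
      · show Function.update (Function.update τ.1 (kk τ) _) (kk τ)
          (Function.update τ.1 (kk τ) (τ.1 (kk τ) + (2 * bi (τ.2.2 (kk τ)) - 1)) (kk τ) +
          (2 * bi (Function.update τ.2.2 (kk τ) (!τ.2.2 (kk τ)) (kk τ)) - 1)) = τ.1
        rw [Function.update_self, Function.update_self, hbi, Function.update_idem]
        have h4 : τ.1 (kk τ) + (2 * bi (τ.2.2 (kk τ)) - 1) + (2 * (1 - bi (τ.2.2 (kk τ))) - 1) =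
          τ.1 (kk τ) := by ring
        rw [h4, Function.update_eq_self]
      · show Function.update (Function.update τ.2.2 (kk τ) _) (kk τ)
          (!(Function.update τ.2.2 (kk τ) (!τ.2.2 (kk τ)) (kk τ))) = τ.2.2
        rw [Function.update_self, Function.update_idem, Bool.not_not, Function.update_eq_self]

end Pool.Agent.Helper43.ZT
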