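import Pool.Agent.Helper43.ZT.Rho

set_option autoImplicit false

/-!
# Sums over flags, twisted: the value of the sum
-/

namespace Pool.Agent.Helper43.ZT

open Finset Pool.Agent.Helper29.ZBU

variable {κ ι : Type} [Fintype κ] [DecidableEq κ] [Fintype ι] [DecidableEq ι] {d N : ℕ}

/-- The sum for the coordinate functions. -/
theorem T_matchA (β : κ → Option ι) (tw : ι → Bool) (hN : 0 < N) (e : Fin d ≃ κ) :
    T N (fun j => sgA β tw N (e j)) = 1 := by
  have hN' : (0 : ℤ) < N := by exact_mod_cast hN
  rw [← T_eq]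
  let τ₀ : Flag κ d := (fun _ => -1, e, fun _ => true)
  have hτ₀ : τ₀ ∈ flags κ d N := by
    rw [mem_flags]
    intro k
    show -(N : ℤ) ≤ -1 ∧ (-1 : ℤ) < N
    omega
  rw [Finset.sum_eq_single_of_mem τ₀ hτ₀]
  · refine Finset.prod_eq_one fun j _ => ?_
    have h1 : vtx τ₀ j (e j) = 0 := by
      show (if ((e.symm (e j) : Fin d) : ℕ) < j then _ else 2 * (-1 + bi true)) = 0
      rw [Equiv.symm_apply_apply, if_neg (lt_irrefl _)]
      rfl
    have h2 : vtx τ₀ (j + 1) (e j) = -1 := by
      show (if ((e.symm (e j) : Fin d) : ℕ) < (j : ℕ) + 1 then 2 * (-1 : ℤ) + 1 else _) = -1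
      rw [Equiv.symm_apply_apply, if_pos (Nat.lt_succ_self _)]
      rfl
    have h3 : tie β tw N (β (e j)) (vtx τ₀ j) = 0 := by
      refine tie_zero β tw _ fun i => ?_
      rintro ⟨k, -, hk⟩
      have : vtx τ₀ j k = -1 ∨ vtx τ₀ j k = 0 := by
        show (if ((e.symm k : Fin d) : ℕ) < j then 2 * (-1 : ℤ) + 1 else 2 * (-1 + bi true)) = -1 ∨
          (if ((e.symm k : Fin d) : ℕ) < j then 2 * (-1 : ℤ) + 1 else 2 * (-1 + bi true)) = 0
        by_cases h : ((e.symm k : Fin d) : ℕ) < j
        · left
          rw [if_pos h]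
          rfl
        · right
          rw [if_neg h]
          rfl
      rcases this with h | h
      · rw [h] at hk
        have : |(-1 : ℤ)| = 1 := rfl
        omega
      · rw [h, abs_zero] at hk
        omega
    unfold sgA
    rw [h1, h2, h3, if_neg (lt_irrefl _), if_neg (lt_irrefl _), if_pos (by omega)]
    decide
  · intro τ _ hne
    by_contra hc
    rw [Finset.prod_eq_zero_iff] at hc
    have hc' : ∀ j : Fin d, sgA β tw N (e j) (vtx τ j) + sgA β tw N (e j) (vtx τ (j + 1)) ≠ 0 :=
      fun j h => hc ⟨j, mem_univ _, h⟩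
    apply hne
    have h0 : ∀ k, τ.1 k + bi (τ.2.2 k) = 0 := by
      intro k
      have := (sgA_change β tw τ (e (e.symm k)) _ (hc' (e.symm k))).1
      rwa [Equiv.apply_symm_apply] at this
    have h1 : ∀ j : Fin d, (j : ℕ) ≤ (τ.2.1.symm (e j) : ℕ) := fun j =>
      (sgA_change β tw τ (e j) _ (hc' j)).2
    -- the bijection is the identity
    have h2 : ∀ n : ℕ, ∀ j : Fin d, d ≤ (j : ℕ) + n → τ.2.1.symm (e j) = j := by
      intro n
      induction n with
      | zero => intro j hj; have := j.2; omega
      | succ n ih =>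
        intro j hj
        refine Fin.ext (le_antisymm ?_ (h1 j))
        by_contra hlt
        push Not at hlt
        have h3 := ih (τ.2.1.symm (e j)) (by omega)
        have h4 := e.injective (τ.2.1.symm.injective h3)
        rw [h4] at hlt
        exact lt_irrefl _ hlt
    have h3 : τ.2.1 = e := by
      ext j
      have := h2 d j (by omega)
      rw [Equiv.symm_apply_eq] at this
      exact this.symm
    have h4 : ∀ k, τ.2.2 k = true := by
      intro k
      by_contra hk
      have hk' : τ.2.2 k = false := by simpa using hk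
      have hj := hc' (e.symm k)
      rw [Equiv.apply_symm_apply] at hj
      apply hj
      have h5 : vtx τ (e.symm k) k = 0 := by
        unfold vtx
        rw [h3, if_neg (lt_irrefl _), h0 k, mul_zero]
      have h6 : vtx τ ((e.symm k : ℕ) + 1) k = 1 := by
        unfold vtx
        rw [h3, if_pos (Nat.lt_succ_self _)]
        have := h0 k
        rw [hk'] at this
        simp only [bi, Bool.false_eq_true, if_false, add_zero] at this
        rw [this]
        rfl
      have h7 : tie β tw N (β k) (vtx τ (e.symm k)) = 0 := by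
        refine tie_zero β tw _ fun i => ?_
        rintro ⟨k', -, hk'⟩
        unfold vtx at hk'
        by_cases h : ((τ.2.1.symm k' : Fin d) : ℕ) < (e.symm k : ℕ)
        · rw [if_pos h] at hk'
          rcases abs_cases (2 * τ.1 k' + 1) with h4 | h4 <;> omega
        · rw [if_neg h, h0 k', mul_zero, abs_zero] at hk'
          omega
      unfold sgA
      rw [h5, h6, h7, if_neg (lt_irrefl _), if_neg (lt_irrefl _), if_neg (by omega),
        if_pos (by omega)]
      decide
    refine Prod.ext ?_ (Prod.ext h3 ?_)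
    · funext k
      have := h0 k
      rw [h4 k] at this
      simp only [bi, if_true] at this
      show τ.1 k = -1
      omega
    · funext k
      exact h4 k

/-- The sum for functions with the characters of blocks, if the blocks have the right sizes. -/
theorem T_label_eq (β : κ → Option ι) (tw : ι → Bool) (hN : 0 < N) (b : Fin d → Option ι)
    {s : Fin d → (κ → ℤ) → ZMod 2} (hs : ∀ j, EqvA β (tA β tw) N (tchi tw (b j)) (s j))
    (h : ∀ i, (univ.filter fun j => b j = i).card = (univ.filter fun k => β k = i).card) :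
    T N s = 1 := by
  have h4 : ∀ i, Nonempty ({j // b j = i} ≃ {k // β k = i}) := by
    intro i
    refine ⟨Fintype.equivOfCardEq ?_⟩
    rw [Fintype.card_subtype, Fintype.card_subtype]
    exact h i
  let F : ∀ i, {j // b j = i} ≃ {k // β k = i} := fun i => (h4 i).some
  let e : Fin d ≃ κ := (Equiv.sigmaFiberEquiv b).symm.trans
    ((Equiv.sigmaCongrRight F).trans (Equiv.sigmaFiberEquiv β))
  have he : ∀ j, β (e j) = b j := fun j => (F (b j) ⟨j, rfl⟩).2
  rw [T_congrA (tA_self β tw) hs (s' := fun j => sgA β tw N (e j)) fun j => ?_,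
    T_matchA β tw hN e]
  rw [← he j]
  exact eqv_sgA β tw hN _

/-- The sum for functions with the characters of blocks, if the block `some i` has too many. -/
theorem T_label_lt (β : κ → Option ι) (tw : ι → Bool) (hN : 0 < N) (b : Fin d → Option ι)
    {s : Fin d → (κ → ℤ) → ZMod 2} (hs : ∀ j, EqvA β (tA β tw) N (tchi tw (b j)) (s j)) (i : ι)
    (h : (univ.filter fun k => β k = some i).card < (univ.filter fun j => b j = some i).card) :
    T N s = 0 := by
  classical
  have hN' : (0 : ℤ) < N := by exact_mod_cast hN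
  have hc : Fintype.card {k // β k = some i} < Fintype.card {j // b j = some i} := by
    rw [Fintype.card_subtype, Fintype.card_subtype]
    exact h
  obtain ⟨f⟩ := Function.Embedding.nonempty_of_card_le hc.le
  have hns : ¬ Function.Surjective f := by
    intro hs
    have := Fintype.card_le_of_surjective f hs
    omega
  rw [Function.Surjective] at hns
  push Not at hns
  obtain ⟨j₁, hj₁⟩ := hns
  let s' : Fin d → (κ → ℤ) → ZMod 2 := fun j =>
    if h : ∃ k, ((f k : {j // b j = some i}) : Fin d) = j then sgA β tw N (h.choose : κ) else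
      if j = (j₁ : Fin d) then ef β tw N (some i) else s j
  have hs' : ∀ j, EqvA β (tA β tw) N (tchi tw (b j)) (s' j) := by
    intro j
    by_cases h : ∃ k, ((f k : {j // b j = some i}) : Fin d) = j
    · have h1 : s' j = sgA β tw N (h.choose : κ) := dif_pos h
      rw [h1]
      have h2 : β (h.choose : κ) = b j := by
        rw [(h.choose).2, ← h.choose_spec, (f h.choose).2]
      rw [← h2]
      exact eqv_sgA β tw hN _
    · have h1 : s' j = if j = (j₁ : Fin d) then ef β tw N (some i) else s j := dif_neg h
      rw [h1]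
      by_cases h2 : j = (j₁ : Fin d)
      · rw [if_pos h2, h2, j₁.2, tchi_some]
        exact eqv_ef β tw hN (some i)
      · rw [if_neg h2]
        exact hs j
  rw [T_congrA (tA_self β tw) hs hs', ← T_eq]
  refine Finset.sum_eq_zero fun τ _ => ?_
  by_contra hc'
  rw [Finset.prod_eq_zero_iff] at hc'
  have hc'' : ∀ j : Fin d, s' j (vtx τ j) + s' j (vtx τ (j + 1)) ≠ 0 :=
    fun j h => hc' ⟨j, mem_univ _, h⟩
  have h1 : s' j₁ = ef β tw N (some i) := by
    have h2 : ¬ ∃ k, ((f k : {j // b j = some i}) : Fin d) = j₁ := by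
      rintro ⟨k, hk⟩
      exact hj₁ k (Subtype.ext hk)
    have h3 : s' j₁ = if (j₁ : Fin d) = (j₁ : Fin d) then ef β tw N (some i) else s j₁ := dif_neg h2
    rw [h3, if_pos rfl]
  have h2 := hc'' j₁
  rw [h1] at h2
  obtain ⟨k, hk1, hk2⟩ := ef_change β tw hN h2
  have h3 : s' (f ⟨k, hk1⟩) = sgA β tw N k := by
    have h4 : ∃ k', ((f k' : {j // b j = some i}) : Fin d) = f ⟨k, hk1⟩ := ⟨_, rfl⟩
    have h5 : s' (f ⟨k, hk1⟩) = sgA β tw N (h4.choose : κ) := dif_pos h4
    have h6 := f.injective (Subtype.ext h4.choose_spec)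
    rw [h5, h6]
  have h4 := hc'' (f ⟨k, hk1⟩)
  rw [h3] at h4
  have h5 := (sgA_change β tw τ k _ h4).1
  rw [h5, abs_zero] at hk2
  omega

/-- The sum is zero if there are all the coordinate functions of the block `none` and moreover the
standard function of this block. -/
theorem T_none (β : κ → Option ι) (tw : ι → Bool) (hN : 0 < N) {s : Fin d → (κ → ℤ) → ZMod 2}
    (h1 : ∀ k, β k = none → ∃ j, s j = sgA β tw N k) (j₁ : Fin d)
    (h2 : s j₁ = ef β tw N none) : T N s = 0 := by
  have hN' : (0 : ℤ) < N := by exact_mod_cast hN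
  rw [← T_eq]
  refine Finset.sum_eq_zero fun τ _ => ?_
  by_contra hc'
  rw [Finset.prod_eq_zero_iff] at hc'
  have hc'' : ∀ j : Fin d, s j (vtx τ j) + s j (vtx τ (j + 1)) ≠ 0 :=
    fun j h => hc' ⟨j, mem_univ _, h⟩
  have h3 := hc'' j₁
  rw [h2] at h3
  obtain ⟨k, hk1, hk2⟩ := ef_change β tw hN h3
  obtain ⟨j, hj⟩ := h1 k hk1
  have h4 := hc'' j
  rw [hj] at h4
  have h5 := (sgA_change β tw τ k _ h4).1
  rw [h5, abs_zero] at hk2
  omega

/-- The value of the sum when the first `m` functions have the character of the coordinates of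
the block `none`, and `m` is the number of these coordinates. -/
theorem T_countA {m e : ℕ} (β : κ → Option ι) (tw : ι → Bool) (hN : 0 < N)
    (hd : Fintype.card κ = m + e) (hm : (univ.filter fun k => β k = none).card = m)
    {χ : Fin e → Option ι → ZMod 2} {s : Fin (m + e) → (κ → ℤ) → ZMod 2}
    (hs : ∀ j, EqvA β (tA β tw) N (tchi tw none) (s (Fin.castAdd e j)))
    (hs' : ∀ j, EqvA β (tA β tw) N (χ j) (s (Fin.natAdd m j))) :
    T N s = ((univ.filter fun σ : Fin e → ι => (∀ j, χ j (some (σ j)) = 1) ∧
      ∀ i, (univ.filter fun j => σ j = i).card = (univ.filter fun k => β k = some i).card).card :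
        ZMod 2) := by
  classical
  have hc : Nonempty (Fin m ≃ {k // β k = none}) := by
    refine ⟨Fintype.equivOfCardEq ?_⟩
    rw [Fintype.card_subtype, Fintype.card_fin]
    exact hm.symm
  obtain ⟨c⟩ := hc
  let E : (Fin e → (κ → ℤ) → ZMod 2) → Fin (m + e) → (κ → ℤ) → ZMod 2 := fun u =>
    Fin.addCases (fun j => sgA β tw N (c j)) u
  have hEl : ∀ u j, E u (Fin.castAdd e j) = sgA β tw N (c j) := fun u j => Fin.addCases_left j
  have hEr : ∀ u j, E u (Fin.natAdd m j) = u j := fun u j => Fin.addCases_right j
  let X : Fin (m + e) → Option ι → ZMod 2 := Fin.addCases (fun _ => tchi tw none) χ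
  have hXl : ∀ j, X (Fin.castAdd e j) = tchi tw none := fun j => Fin.addCases_left j
  have hXr : ∀ j, X (Fin.natAdd m j) = χ j := fun j => Fin.addCases_right j
  have h1 : ∀ j, EqvA β (tA β tw) N (χ j) (fun x => ∑ i, χ j i * ef β tw N i x) := by
    intro j i' x hx
    show ∑ i, χ j i * ef β tw N i (negA (tA β tw) i' x) = ∑ i, χ j i * ef β tw N i x + χ j i'
    have h2 : ∀ i, χ j i * ef β tw N i (negA (tA β tw) i' x) = χ j i * ef β tw N i x +
        if i = i' then χ j i' else 0 := by
      intro i
      have h3 := eqv_ef β tw hN i i' x hx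
      rw [h3, mul_add]
      congr 1
      by_cases hi : i = i'
      · subst hi
        rw [Pi.single_eq_same, if_pos rfl, mul_one]
      · rw [Pi.single_eq_of_ne (fun h => hi h.symm), if_neg hi, mul_zero]
    simp only [h2]
    rw [Finset.sum_add_distrib, Finset.sum_ite_eq' univ i', if_pos (mem_univ _)]
  have hsX : ∀ j, EqvA β (tA β tw) N (X j) (s j) := by
    intro j
    refine Fin.addCases (fun j => ?_) (fun j => ?_) j
    · rw [hXl]
      exact hs j
    · rw [hXr]
      exact hs' j
  have hEX : ∀ j, EqvA β (tA β tw) N (X j) (E (fun j x => ∑ i, χ j i * ef β tw N i x) j) := by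
    intro j
    refine Fin.addCases (fun j => ?_) (fun j => ?_) j
    · rw [hXl, hEl]
      have h2 := eqv_sgA β tw hN (c j : κ)
      rwa [(c j).2] at h2
    · rw [hXr, hEr]
      exact h1 j
  rw [T_congrA (tA_self β tw) hsX hEX]
  have h2 : T N (E (fun j x => ∑ i, χ j i * ef β tw N i x)) =
      ∑ σ : Fin e → Option ι, (∏ j, χ j (σ j)) * T N (E fun j => ef β tw N (σ j)) := by
    unfold T
    have h3 : ∀ τ : Flag κ (m + e), ∏ j, E (fun j x => ∑ i, χ j i * ef β tw N i x) j (vtx τ j) =
        ∑ σ : Fin e → Option ι, (∏ j, χ j (σ j)) *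
          ∏ j, E (fun j => ef β tw N (σ j)) j (vtx τ j) := by
      intro τ
      rw [Fin.prod_univ_add]
      simp only [hEl, hEr]
      rw [Finset.prod_univ_sum, Fintype.piFinset_univ, Finset.mul_sum]
      refine Finset.sum_congr rfl fun σ _ => ?_
      rw [Fin.prod_univ_add]
      simp only [hEl, hEr]
      rw [Finset.prod_mul_distrib]
      ring
    simp only [h3]
    rw [Finset.sum_comm]
    refine Finset.sum_congr rfl fun σ _ => ?_
    rw [Finset.mul_sum]
  rw [h2]
  -- the terms with `none` vanish
  have h4 : ∀ σ : Fin e → Option ι, (∃ j, σ j = none) →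
      (∏ j, χ j (σ j)) * T N (E fun j => ef β tw N (σ j)) = 0 := by
    rintro σ ⟨j₁, hj₁⟩
    rw [T_none β tw hN (s := E fun j => ef β tw N (σ j)) ?_ (Fin.natAdd m j₁) ?_, mul_zero]
    · intro k hk
      refine ⟨Fin.castAdd e (c.symm ⟨k, hk⟩), ?_⟩
      rw [hEl, Equiv.apply_symm_apply]
    · rw [hEr, hj₁]
  have h5 : ∑ σ : Fin e → Option ι, (∏ j, χ j (σ j)) * T N (E fun j => ef β tw N (σ j)) =
      ∑ σ : Fin e → ι, (∏ j, χ j (some (σ j))) * T N (E fun j => ef β tw N (some (σ j))) := by
    symm
    refine Finset.sum_of_injOn (fun σ j => some (σ j)) ?_ ?_ ?_ ?_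
    · intro σ _ σ' _ h
      funext j
      exact Option.some.inj (congrFun h j)
    · intro σ _
      exact mem_univ _
    · intro σ _ hσ
      apply h4
      by_contra hc
      push Not at hc
      apply hσ
      have h6 : ∀ j, ∃ i, σ j = some i := fun j => Option.ne_none_iff_exists'.1 (hc j)
      choose f hf using h6
      exact ⟨f, mem_univ _, funext fun j => (hf j).symm⟩
    · intro σ _
      rfl
  rw [h5, Finset.card_filter]
  push_cast
  refine Finset.sum_congr rfl fun σ _ => ?_
  let b : Fin (m + e) → Option ι := Fin.addCases (fun _ => none) fun j => some (σ j)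
  have hbl : ∀ j, b (Fin.castAdd e j) = none := fun j => Fin.addCases_left j
  have hbr : ∀ j, b (Fin.natAdd m j) = some (σ j) := fun j => Fin.addCases_right j
  have hbs : ∀ j, EqvA β (tA β tw) N (tchi tw (b j)) (E (fun j => ef β tw N (some (σ j))) j) := by
    intro j
    refine Fin.addCases (fun j => ?_) (fun j => ?_) j
    · rw [hbl, hEl]
      have h2 := eqv_sgA β tw hN (c j : κ)
      rwa [(c j).2] at h2
    · rw [hbr, hEr, tchi_some]
      exact eqv_ef β tw hN _
  have hbn : (univ.filter fun j => b j = none).card = (univ.filter fun k => β k = none).card := by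
    rw [hm, Finset.card_filter, Fin.sum_univ_add]
    simp [hbl, hbr]
  have hbi : ∀ i, (univ.filter fun j => b j = some i).card = (univ.filter fun j => σ j = i).card := by
    intro i
    rw [Finset.card_filter, Fin.sum_univ_add, Finset.card_filter]
    simp [hbl, hbr]
  by_cases h7 : ∀ i, (univ.filter fun j => σ j = i).card = (univ.filter fun k => β k = some i).card
  · have h8 : T N (E fun j => ef β tw N (some (σ j))) = 1 := by
      refine T_label_eq β tw hN b hbs fun i => ?_
      cases i with
      | none => exact hbn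
      | some i => rw [hbi, h7]
    rw [h8, mul_one]
    by_cases h9 : ∀ j, χ j (some (σ j)) = 1
    · rw [if_pos ⟨h9, h7⟩]
      exact Finset.prod_eq_one fun j _ => h9 j
    · rw [if_neg (fun h => h9 h.1)]
      push Not at h9
      obtain ⟨j, hj⟩ := h9
      refine Finset.prod_eq_zero (mem_univ j) ?_
      have : ∀ a : ZMod 2, a ≠ 1 → a = 0 := by decide
      exact this _ hj
  · rw [if_neg (fun h => h7 h.2)]
    have h8 : ∃ i, (univ.filter fun k => β k = some i).card < (univ.filter fun j => σ j = i).card := by
      by_contra hc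
      push Not at hc
      apply h7
      have h9 : ∑ i : Option ι, (univ.filter fun j => b j = i).card =
          ∑ i : Option ι, (univ.filter fun k => β k = i).card := by
        rw [← Finset.card_eq_sum_card_fiberwise (f := b) (t := univ) (fun _ _ => mem_univ _),
          ← Finset.card_eq_sum_card_fiberwise (f := β) (t := univ) (fun _ _ => mem_univ _)]
        rw [Finset.card_univ, Finset.card_univ, Fintype.card_fin, hd]
      rw [Fintype.sum_option, Fintype.sum_option, hbn] at h9
      have h10 := Nat.add_left_cancel h9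
      simp only [hbi] at h10
      intro i
      exact ((Finset.sum_eq_sum_iff_of_le fun i _ => hc i).mp h10) i (mem_univ i)
    obtain ⟨i, hi⟩ := h8
    rw [T_label_lt β tw hN b hbs i (by rw [hbi]; exact hi), mul_zero]

end Pool.Agent.Helper43.ZT
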