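import Pool.Agent.Helper43.ZT.Cont
import Pool.Agent.Helper29.ZBU.Spheres
import Pool.Agent.Helper20.EH.Crit

set_option autoImplicit false

/-!
# Products of spheres in the set of the conjugates of `q`
-/

open NormedSpace Filter Topology Matrix Module Pool.Agent.Helper17.CKF Pool.Agent.Helper40.CK
open Pool.Agent.Helper29.CKP Pool.Agent.Helper20.EH Pool.Agent.Helper29.ZBU

namespace Pool.Agent.Helper43.ZT

variable {m : ℕ} {G : Type} [Group G] [TopologicalSpace G] [IsTopologicalGroup G]

/-- The number of the assignments of equations with the characters `χ` to spheres of dimension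
`a i`. -/
def cnum {ι : Type} [Fintype ι] [DecidableEq ι] {e : ℕ} (a : ι → ℕ) (χ : Fin e → ι → ZMod 2) : ℕ :=
  (Finset.univ.filter fun σ : Fin e → ι => (∀ j, χ j (σ j) = 1) ∧
      ∀ i, (Finset.univ.filter fun j => σ j = i).card = a i).card

/-- The characters: the first `e` functions are odd in the variables `i` with `tw i`, the others
have the characters `ψ`. -/
def chiB {ι : Type} {e l : ℕ} (tw : ι → Bool) (ψ : Fin l → ι → ZMod 2) : Fin (e + l) → ι → ZMod 2 :=
  Fin.append (fun _ i => if tw i = true then 1 else 0) ψ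

theorem multi_odd (M : MatGroup G m) {p q : Submodule ℝ (Matrix (Fin m) (Fin m) ℝ)}
    {H Γ : Subgroup G} (hG : Cartan M ⊤ p) (hH : Cartan M H q)
    (hΓ : IsCocompactDiscontinuousGroup Γ H) {ι : Type} [Fintype ι] [DecidableEq ι] (a : ι → ℕ)
    (tw : ι → Bool) {l : ℕ} (ha : ∑ i, a i = finrank ℝ q + l) (ψ : Fin l → ι → ZMod 2)
    (g : (∀ i, Fin (a i + 1) → ℝ) → Matrix (Fin m) (Fin m) ℝ)
    (h : (∀ i, Fin (a i + 1) → ℝ) → Fin l → ℝ)
    (hg : ContinuousOn g {y | ∀ i, y i ≠ 0}) (hh : ContinuousOn h {y | ∀ i, y i ≠ 0})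
    (hgp : ∀ y, (∀ i, y i ≠ 0) → g y ∈ p)
    (hgs : ∀ y, (∀ i, y i ≠ 0) → ∀ i,
      g (Function.update y i (-y i)) = if tw i = true then -g y else g y)
    (hhs : ∀ y, (∀ i, y i ≠ 0) → ∀ i j,
      h (Function.update y i (-y i)) j = sgn (ψ j i) * h y j)
    (hmem : ∀ y, (∀ i, y i ≠ 0) → h y = 0 → g y ≠ 0 ∧ ∃ k : G, M.ι k * (M.ι k)ᵀ = 1 ∧ ∃ Y ∈ q,
      g y = M.ι k * Y * (M.ι k)ᵀ) :
    Even (cnum a (chiB (e := finrank ℝ q) tw ψ)) := by
  classical
  by_contra hev
  obtain ⟨F, hFc, hF⟩ := odd_map M hG hH hΓ
  obtain ⟨E, hE, hE1, hE2⟩ := Pool.Agent.Helper20.CKP.finrank_perp q p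
  have hqp := cartan_le hG hH
  have hdim : finrank ℝ E + finrank ℝ q = finrank ℝ p := le_antisymm (hE2 hqp hG.symm) hE1
  have hx0 : ∀ x : E, x ≠ 0 → (x : Matrix (Fin m) (Fin m) ℝ) ≠ 0 := fun x hx h =>
    hx (Subtype.ext h)
  have hFx := fun (x : E) (hx : x ≠ 0) => hF x ((hE x).1 x.2).1 ((hE x).1 x.2).2 (hx0 x hx)
  have hF0 : ∀ x : E, x ≠ 0 → F x ≠ 0 := by
    intro x hx h
    refine (hFx x hx).2.2 1 ?_ 0 q.zero_mem ?_
    · rw [map_one, transpose_one, one_mul]
    · rw [h, mul_zero, zero_mul]
  let f₁ : E → Matrix (Fin m) (Fin m) ℝ :=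
    resc (fun x : E => fro (x : Matrix (Fin m) (Fin m) ℝ)) fun x => F x
  have hf₁ : Continuous f₁ := by
    refine continuous_resc (continuous_fro.comp continuous_subtype_val) ?_ ?_ hF0
    · exact fro_zero
    refine hFc.comp continuous_subtype_val.continuousOn ?_
    intro x hx
    exact ⟨((hE x).1 x.2).1, ((hE x).1 x.2).2, hx0 x hx⟩
  have hf₁0 : f₁ 0 = 0 := by
    show (fro (0 : Matrix (Fin m) (Fin m) ℝ) * _) • _ = (0 : Matrix (Fin m) (Fin m) ℝ)
    rw [fro_zero, zero_mul, zero_smul]
  have hp₁ : ∀ x, f₁ x ∈ p := by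
    intro x
    by_cases hx : x = 0
    · rw [hx, hf₁0]
      exact p.zero_mem
    · exact p.smul_mem _ (hFx x hx).1
  have hne₁ : ∀ x : E, x ≠ 0 → ∃ c : ℝ, 0 < c ∧ f₁ x = c • F x := fun x hx =>
    ⟨_, mul_pos (fro_pos (hx0 x hx)) (inv_pos.2 (fro_pos (hF0 x hx))), rfl⟩
  have hneg₁ : ∀ x : E, f₁ (-x) = -f₁ x := by
    intro x
    by_cases hx : x = 0
    · rw [hx, neg_zero, hf₁0, neg_zero]
    · show (fro (-(x : Matrix (Fin m) (Fin m) ℝ)) *
        (fro (F (-(x : Matrix (Fin m) (Fin m) ℝ))))⁻¹) •
        F (-(x : Matrix (Fin m) (Fin m) ℝ)) = -((fro (x : Matrix (Fin m) (Fin m) ℝ) *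
          (fro (F (x : Matrix (Fin m) (Fin m) ℝ)))⁻¹) • F (x : Matrix (Fin m) (Fin m) ℝ))
      rw [(hFx x hx).2.1, fro_neg, fro_neg, smul_neg]
  -- the coordinates
  let B : p ≃ₗ[ℝ] (Fin (finrank ℝ E) → ℝ) × (Fin (finrank ℝ q) → ℝ) :=
    LinearEquiv.ofFinrankEq _ _ (by
      rw [finrank_prod, finrank_fin_fun, finrank_fin_fun, hdim])
  let L : (Fin (finrank ℝ E) → ℝ) ≃ₗ[ℝ] E := LinearEquiv.ofFinrankEq _ _ (by rw [finrank_fin_fun])
  have hBc : Continuous B := LinearMap.continuous_of_finiteDimensional B.toLinearMap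
  have hLc : Continuous L := LinearMap.continuous_of_finiteDimensional L.toLinearMap
  let κ : Type := Fin (finrank ℝ E) ⊕ (Σ i, Fin (a i))
  let β : κ → Option ι := Sum.elim (fun _ => none) fun k => some k.1
  let xx : (κ → ℝ) → Fin (finrank ℝ E) → ℝ := fun z j => z (Sum.inl j)
  let yy : (κ → ℝ) → ∀ i, Fin (a i + 1) → ℝ := fun z i => up fun j => z (Sum.inr ⟨i, j⟩)
  have hxc : Continuous xx := continuous_pi fun j => continuous_apply _
  have hyc : Continuous yy := continuous_pi fun i =>
    continuous_up.comp (continuous_pi fun j => continuous_apply _)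
  have hy0 : ∀ z i, yy z i ≠ 0 := fun z i => up_ne_zero _
  let w : (κ → ℝ) → p := fun z => ⟨f₁ (L (xx z)) - (1 - ‖xx z‖) • g (yy z),
    p.sub_mem (hp₁ _) (p.smul_mem _ (hgp _ (hy0 z)))⟩
  have hwc : Continuous w := by
    refine continuous_induced_rng.2 ?_
    show Continuous fun z => f₁ (L (xx z)) - (1 - ‖xx z‖) • g (yy z)
    refine (hf₁.comp (hLc.comp hxc)).sub ((continuous_const.sub hxc.norm).smul ?_)
    exact hg.comp_continuous hyc hy0
  let f : (κ → ℝ) → Fin (finrank ℝ E + (finrank ℝ q + l)) → ℝ := fun z =>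
    Fin.append (B (w z)).1 (Fin.append (B (w z)).2 (h (yy z)))
  let χ : Fin (finrank ℝ E + (finrank ℝ q + l)) → Option ι → ZMod 2 :=
    Fin.append (fun _ => tchi tw none)
      (Fin.append (fun _ => tchi tw none) fun j i => i.elim 0 (ψ j))
  have hχl : ∀ j, χ (Fin.castAdd _ j) = tchi tw none := fun j => by
    show Fin.append _ _ (Fin.castAdd _ j) = _
    rw [Fin.append_left]
  have hχm : ∀ j, χ (Fin.natAdd _ (Fin.castAdd _ j)) = tchi tw none := fun j => by
    show Fin.append _ (Fin.append _ _) (Fin.natAdd _ (Fin.castAdd _ j)) = _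
    rw [Fin.append_right, Fin.append_left]
  have hχr : ∀ j, χ (Fin.natAdd _ (Fin.natAdd _ j)) = fun i => i.elim 0 (ψ j) := fun j => by
    show Fin.append _ (Fin.append _ _) (Fin.natAdd _ (Fin.natAdd _ j)) = _
    rw [Fin.append_right, Fin.append_right]
  have hfl : ∀ z j, f z (Fin.castAdd _ j) = (B (w z)).1 j := fun z j => by
    show Fin.append (B (w z)).1 _ (Fin.castAdd _ j) = _
    rw [Fin.append_left]
  have hfm : ∀ z j, f z (Fin.natAdd _ (Fin.castAdd _ j)) = (B (w z)).2 j := fun z j => by
    show Fin.append (B (w z)).1 (Fin.append (B (w z)).2 _) (Fin.natAdd _ (Fin.castAdd _ j)) = _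
    rw [Fin.append_right, Fin.append_left]
  have hfr : ∀ z j, f z (Fin.natAdd _ (Fin.natAdd _ j)) = h (yy z) j := fun z j => by
    show Fin.append (B (w z)).1 (Fin.append (B (w z)).2 (h (yy z)))
      (Fin.natAdd _ (Fin.natAdd _ j)) = _
    rw [Fin.append_right, Fin.append_right]
  have hfc : Continuous f := by
    refine continuous_pi fun j => ?_
    refine Fin.addCases (fun j => ?_) (fun j => ?_) j
    · have h3 := (continuous_apply j).comp ((continuous_fst.comp hBc).comp hwc)
      refine h3.congr fun z => ?_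
      show _ = Fin.append (B (w z)).1 _ (Fin.castAdd _ j)
      rw [Fin.append_left]
      rfl
    · refine Fin.addCases (fun j => ?_) (fun j => ?_) j
      · have h3 := (continuous_apply j).comp ((continuous_snd.comp hBc).comp hwc)
        refine h3.congr fun z => ?_
        show _ = Fin.append (B (w z)).1 _ (Fin.natAdd _ (Fin.castAdd _ j))
        rw [Fin.append_right, Fin.append_left]
        rfl
      · have h3 := (continuous_apply j).comp (hh.comp_continuous hyc hy0)
        refine h3.congr fun z => ?_
        show _ = Fin.append (B (w z)).1 _ (Fin.natAdd _ (Fin.natAdd _ j))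
        rw [Fin.append_right, Fin.append_right]
        rfl
  have hcard : Fintype.card κ = finrank ℝ E + (finrank ℝ q + l) := by
    rw [Fintype.card_sum, Fintype.card_fin, Fintype.card_sigma]
    simp only [Fintype.card_fin]
    rw [ha]
  have hm : (Finset.univ.filter fun k : κ => β k = none).card = finrank ℝ E := by
    rw [Finset.card_filter, Fintype.sum_sum_type]
    simp [β]
  have hfib : ∀ i, (Finset.univ.filter fun k : κ => β k = some i).card = a i := by
    intro i
    rw [Finset.card_filter, Fintype.sum_sum_type]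
    have h1 : ∀ k : Σ i, Fin (a i), (if β (Sum.inr k) = some i then 1 else 0) =
        if k.1 = i then 1 else 0 := by
      intro k
      have hk' : β (Sum.inr k) = some k.1 := rfl
      rw [hk']
      by_cases hk : k.1 = i
      · rw [if_pos hk, if_pos (show some k.1 = some i by rw [hk])]
      · rw [if_neg hk, if_neg (fun h => hk (Option.some.inj h))]
    simp only [h1]
    rw [Fintype.sum_sigma]
    have h2 : ∀ x : ι, ∑ _y : Fin (a x), (if x = i then 1 else 0) = if x = i then a x else 0 := by
      intro x
      rw [Finset.sum_const, Finset.card_univ, Fintype.card_fin, smul_eq_mul]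
      split_ifs <;> simp
    simp only [h2]
    rw [Finset.sum_ite_eq' Finset.univ i, if_pos (Finset.mem_univ _)]
    simp [β]
  have hcnt : (cntT β (fun j => χ (Fin.natAdd (finrank ℝ E) j)) : ZMod 2) ≠ 0 := by
    rw [Ne, ZMod.natCast_eq_zero_iff_even]
    convert hev using 2
    unfold cntT cnum
    simp only [hfib]
    congr 1
    ext σ
    simp only [Finset.mem_filter, Finset.mem_univ, true_and]
    refine and_congr_left fun _ => forall_congr' fun j => ?_
    have h1 : χ (Fin.natAdd (finrank ℝ E) j) (some (σ j)) = chiB tw ψ j (σ j) := by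
      generalize σ j = i
      refine Fin.addCases (fun j => ?_) (fun j => ?_) j
      · rw [hχm]
        unfold chiB
        rw [Fin.append_left]
        unfold tchi
        rw [tb_none_some]
      · rw [hχr]
        unfold chiB
        rw [Fin.append_right]
        rfl
    rw [h1]
  obtain ⟨z, hz, hz0⟩ := zero_cubeT β tw χ hcard hm
    (fun j => by
      show Fin.append _ _ (Fin.castAdd _ j) = _
      rw [Fin.append_left]) hcnt f hfc.continuousOn (by
      intro z hz i hex j
      have hfin : ∀ z' : κ → ℝ, ∀ i' : Option ι, (w z' = if tchi tw none i' = 0 then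
          w z else -w z) → (∀ j, h (yy z') j = sgn (i'.elim 0 (ψ j)) * h (yy z) j) →
          ∀ j, f z' j = sgn (χ j i') * f z j := by
        intro z' i' hw hh' j
        have hs1 : ∀ b : ZMod 2, b ≠ 0 → sgn b = -1 := fun b hb => if_neg hb
        refine Fin.addCases (fun j => ?_) (fun j => ?_) j
        · rw [hfl, hfl, hχl, hw]
          by_cases hc : tchi tw none i' = 0
          · rw [if_pos hc, hc, show sgn (0 : ZMod 2) = 1 from if_pos rfl, one_mul]
          · rw [if_neg hc, hs1 _ hc, map_neg, neg_one_mul]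
            rfl
        · refine Fin.addCases (fun j => ?_) (fun j => ?_) j
          · rw [hfm, hfm, hχm, hw]
            by_cases hc : tchi tw none i' = 0
            · rw [if_pos hc, hc, show sgn (0 : ZMod 2) = 1 from if_pos rfl, one_mul]
            · rw [if_neg hc, hs1 _ hc, map_neg, neg_one_mul]
              rfl
          · rw [hfr, hfr, hχr]
            exact hh' j
      have hw' : ∀ (z' : κ → ℝ) (c : Prop) [Decidable c], xx z' = (if c then xx z else -xx z) →
          (1 - ‖xx z‖) • g (yy z') = (if c then (1 - ‖xx z‖) • g (yy z) else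
            -((1 - ‖xx z‖) • g (yy z))) → w z' = if c then w z else -w z := by
        intro z' c _ h1 h2
        have h3 : ‖xx z'‖ = ‖xx z‖ := by
          rw [h1]
          split_ifs
          · rfl
          · rw [norm_neg]
        refine Subtype.ext ?_
        show f₁ (L (xx z')) - (1 - ‖xx z'‖) • g (yy z') = _
        rw [h3, h2, h1]
        by_cases hc : c
        · rw [if_pos hc, if_pos hc, if_pos hc]
        · rw [if_neg hc, if_neg hc, if_neg hc, map_neg, hneg₁]
          show _ = -(f₁ (L (xx z)) - (1 - ‖xx z‖) • g (yy z))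
          rw [neg_sub, sub_neg_eq_add]
          abel
      obtain ⟨k, hk1, hk2⟩ := hex
      cases i with
      | none =>
        have hn : ‖xx z‖ = 1 := by
          rcases k with k | k
          · refine le_antisymm ?_ ?_
            · rw [pi_norm_le_iff_of_nonneg zero_le_one]
              intro l'
              rw [Real.norm_eq_abs, abs_le]
              exact ⟨hz.1 _, hz.2 _⟩
            · rw [← hk2, ← Real.norm_eq_abs]
              exact norm_le_pi_norm (xx z) k
          · exact absurd hk1 (by simp [β])
        have hχ1 : tchi tw none none ≠ 0 := by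
          unfold tchi
          rw [tb_none_none]
          simp
        have hyy : yy (negT β tw none z) = yy z := by
          funext i'
          show up (fun l' => if tb tw none (some i') = true then -z (Sum.inr ⟨i', l'⟩) else
            z (Sum.inr ⟨i', l'⟩)) = _
          rw [tb_some]
          simp
          rfl
        refine hfin _ none ?_ ?_ j
        · refine hw' _ (tchi tw none none = 0) ?_ ?_
          · rw [if_neg hχ1]
            funext l'
            show (if tb tw none none = true then -z (Sum.inl l') else z (Sum.inl l')) = -z (Sum.inl l')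
            rw [tb_none_none, if_pos rfl]
          · rw [if_neg hχ1, hn, sub_self, zero_smul, zero_smul, neg_zero]
        · intro j
          rw [hyy]
          show _ = sgn 0 * _
          rw [show sgn (0 : ZMod 2) = 1 from if_pos rfl, one_mul]
      | some i =>
        have hn : ‖fun l' => z (Sum.inr ⟨i, l'⟩)‖ = 1 := by
          rcases k with k | k
          · exact absurd hk1 (by simp [β])
          · obtain ⟨i', l₀⟩ := k
            have hk3 : i' = i := Option.some.inj hk1
            subst hk3
            refine le_antisymm ?_ ?_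
            · rw [pi_norm_le_iff_of_nonneg zero_le_one]
              intro l'
              rw [Real.norm_eq_abs, abs_le]
              exact ⟨hz.1 _, hz.2 _⟩
            · rw [← hk2, ← Real.norm_eq_abs]
              exact norm_le_pi_norm (fun l' => z (Sum.inr ⟨i', l'⟩)) l₀
        have hyy : yy (negT β tw (some i) z) = Function.update (yy z) i (-yy z i) := by
          funext i'
          by_cases hi : i' = i
          · subst hi
            rw [Function.update_self]
            have h2 : (fun l' => negT β tw (some i') z (Sum.inr ⟨i', l'⟩)) =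
                -fun l' => z (Sum.inr ⟨i', l'⟩) := by
              funext l'
              show (if tb tw (some i') (some i') = true then -z (Sum.inr ⟨i', l'⟩) else
                z (Sum.inr ⟨i', l'⟩)) = -z (Sum.inr ⟨i', l'⟩)
              rw [tb_some]
              simp
            show up (fun l' => negT β tw (some i') z (Sum.inr ⟨i', l'⟩)) = _
            rw [h2, up_neg _ hn]
          · rw [Function.update_of_ne hi]
            show up (fun l' => if tb tw (some i) (some i') = true then -z (Sum.inr ⟨i', l'⟩) else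
              z (Sum.inr ⟨i', l'⟩)) = _
            rw [tb_some]
            simp [hi]
            rfl
        have hχ1 : tchi tw none (some i) = 0 ↔ ¬ tw i = true := by
          unfold tchi
          rw [tb_none_some]
          by_cases ht : tw i = true
          · simp [ht]
          · simp [ht]
        refine hfin _ (some i) ?_ ?_ j
        · refine hw' _ (tchi tw none (some i) = 0) ?_ ?_
          · funext l'
            show (if tb tw (some i) none = true then -z (Sum.inl l') else z (Sum.inl l')) = _
            rw [tb_none_some]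
            by_cases ht : tw i = true
            · rw [if_pos ht, if_neg (fun h => hχ1.1 h ht)]
              rfl
            · rw [if_neg ht, if_pos (hχ1.2 ht)]
          · rw [hyy, hgs _ (hy0 z) i]
            by_cases ht : tw i = true
            · rw [if_pos ht, if_neg (fun h => hχ1.1 h ht), smul_neg]
            · rw [if_neg ht, if_pos (hχ1.2 ht)]
        · intro j
          rw [hyy]
          exact hhs _ (hy0 z) i j)
  have h1 : w z = 0 := by
    apply B.map_eq_zero_iff.1
    refine Prod.ext ?_ ?_
    · funext j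
      have h3 := congrFun hz0 (Fin.castAdd _ j)
      have h4 : Fin.append (B (w z)).1 _ (Fin.castAdd _ j) = 0 := h3
      rwa [Fin.append_left] at h4
    · funext j
      have h3 := congrFun hz0 (Fin.natAdd _ (Fin.castAdd _ j))
      have h4 : Fin.append (B (w z)).1 (Fin.append (B (w z)).2 (h (yy z)))
        (Fin.natAdd _ (Fin.castAdd _ j)) = 0 := h3
      rwa [Fin.append_right, Fin.append_left] at h4
  have h2 : h (yy z) = 0 := by
    funext j
    have h3 := congrFun hz0 (Fin.natAdd _ (Fin.natAdd _ j))
    have h4 : Fin.append (B (w z)).1 (Fin.append (B (w z)).2 (h (yy z)))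
      (Fin.natAdd _ (Fin.natAdd _ j)) = 0 := h3
    rwa [Fin.append_right, Fin.append_right] at h4
  obtain ⟨hg0, k, hk, Y, hY, ek⟩ := hmem _ (hy0 z) h2
  have h3 : f₁ (L (xx z)) = (1 - ‖xx z‖) • g (yy z) := by
    have h4 : f₁ (L (xx z)) - (1 - ‖xx z‖) • g (yy z) = 0 := congrArg Subtype.val h1
    exact sub_eq_zero.1 h4
  by_cases hx : xx z = 0
  · rw [hx, map_zero, hf₁0, norm_zero, sub_zero, one_smul] at h3
    exact hg0 h3.symm
  · have hLx : L (xx z) ≠ 0 := fun h => hx (L.map_eq_zero_iff.1 h)
    obtain ⟨c, hc, e⟩ := hne₁ _ hLx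
    rw [e] at h3
    refine (hFx _ hLx).2.2 k hk ((c⁻¹ * (1 - ‖xx z‖)) • Y) (q.smul_mem _ hY) ?_
    have h4 : F (L (xx z)) = (c⁻¹ * (1 - ‖xx z‖)) • g (yy z) := by
      rw [mul_smul, ← h3, smul_smul, inv_mul_cancel₀ hc.ne', one_smul]
    rw [h4, ek, mul_smul_comm, smul_mul_assoc]

end Pool.Agent.Helper43.ZT
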