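import Pool.Agent.Helper43.ZT.Main
import Pool.Agent.Helper20.CKP.EvenN

set_option autoImplicit false

/-!
# Binomial coefficients for the subgroups of type `U(1, n; K)`
-/

open NormedSpace Filter Topology Matrix Module Pool.Agent.Helper17.CKF Pool.Agent.Helper40.CK
open Pool.Agent.Helper29.CKP Pool.Agent.Helper20.CKP Pool.Agent.Helper29.ZBU

namespace Pool.Agent.Helper43.ZT

/-- The number for two spheres and functions which are odd in both variables. -/
theorem cnum_two (e k : ℕ) (a : Bool → ℕ) (ha : a true = k) (ha' : a false = e - k)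
    (ψ : Fin 0 → Bool → ZMod 2) : cnum a (chiB (e := e) (fun _ => true) ψ) = e.choose k := by
  classical
  have h1 := card_chr e 0 k
  rw [← h1]
  unfold cnum
  congr 1
  ext σ
  simp only [Finset.mem_filter, Finset.mem_univ, true_and]
  refine and_congr (forall_congr' fun j => ?_) (forall_congr' fun i => ?_)
  · have h2 : chiB (e := e) (fun _ => true) ψ j (σ j) = 1 := by
      unfold chiB
      refine Fin.addCases (fun j => ?_) (fun j => j.elim0) j
      rw [Fin.append_left, if_pos rfl]
    have h3 : chr e 0 j (σ j) = 1 := by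
      unfold chr
      have := j.2
      split_ifs
      · rfl
      · omega
      · rfl
    rw [h2, h3]
  · cases i with
    | true => rw [ha, if_pos rfl]
    | false =>
      rw [ha', if_neg (by simp)]
      exact Iff.rfl

theorem vecMulVec_ne_zero' {K : Type} [RCLike K] {r n : ℕ} {w : Fin r → K} {y : Fin n → K}
    (hw : w ≠ 0) (hy : y ≠ 0) : vecMulVec w y ≠ 0 := by
  obtain ⟨i, hi⟩ := Function.ne_iff.1 hw
  obtain ⟨j, hj⟩ := Function.ne_iff.1 hy
  intro h
  have h1 : w i * y j = 0 := congrFun (congrFun h i) j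
  exact mul_ne_zero hi hj h1

/-- If the space `p` of `H` is that of a group `U(1, n; K)`, then the binomial coefficients
`(d n).choose a`, `1 ≤ a < d r`, are even. -/
theorem even_choose {K : Type} [RCLike K] {r n N : ℕ} {G : Subgroup (GL (Fin N) ℝ)}
    {P : Matrix (Fin r) (Fin n) K →ₗ[ℝ] Matrix (Fin N) (Fin N) ℝ} {H : Subgroup G}
    (D : PData K r n G P) (hH : IsReductive (H.map G.subtype)) (had : AdmitsCocompact H)
    {u : Fin r → K} (hu : u ≠ 0)
    (h : ∀ B, B ∈ (pSpace (H.map G.subtype)).comap P ↔ ∃ x : Fin n → K, B = vecMulVec u x)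
    {a : ℕ} (ha : 1 ≤ a) (har : a < r * finrank ℝ K) :
    Even ((n * finrank ℝ K).choose a) := by
  classical
  by_cases han : n * finrank ℝ K < a
  · rw [Nat.choose_eq_zero_of_lt han]
    exact Even.zero
  rw [not_lt] at han
  have hfr := D.finrank_comap hH
  have hle := map_le D.red hH
  set M := oneM D.red.closed with hM
  set q := pSpace (H.map G.subtype) with hq
  have hCG : Cartan M ⊤ (pSpace G) := cartan_top D.red
  have hCH : Cartan M H q := cartan_one _ hH
  obtain ⟨Γ, hΓ⟩ := had
  have hq1 : finrank ℝ q = n * finrank ℝ K := by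
    rw [← hfr]
    let e : (Fin n → K) →ₗ[ℝ] Matrix (Fin r) (Fin n) K :=
      { toFun := fun x => vecMulVec u x
        map_add' := fun x y => vecMulVec_add _ _ _
        map_smul' := fun c x => by
          ext i j
          simp only [vecMulVec_apply, Pi.smul_apply, Matrix.smul_apply, RingHom.id_apply]
          rw [mul_smul_comm] }
    have he : Function.Injective e := by
      intro x y hxy
      obtain ⟨i, hi⟩ := Function.ne_iff.1 hu
      funext j
      have h2 : u i * x j = u i * y j := congrFun (congrFun hxy i) j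
      exact mul_left_cancel₀ hi h2
    have h2 : q.comap P = LinearMap.range e := by
      ext B
      rw [h, LinearMap.mem_range]
      exact ⟨fun ⟨x, hx⟩ => ⟨x, hx.symm⟩, fun ⟨x, hx⟩ => ⟨x, hx.symm⟩⟩
    rw [h2, LinearMap.finrank_range_of_inj he, finrank_pi_fintype]
    simp
  let aa : Bool → ℕ := fun i => if i = true then a else n * finrank ℝ K - a
  obtain ⟨Φ, hΦ⟩ := exists_inj (E := Fin r → K) (m := aa true + 1) (by
    rw [finrank_pi_fintype]
    simp only [Finset.sum_const, Finset.card_univ, Fintype.card_fin, smul_eq_mul]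
    show a + 1 ≤ _
    omega)
  obtain ⟨Ψ, hΨ⟩ := exists_inj (E := Fin n → K) (m := aa false + 1) (by
    rw [finrank_pi_fintype]
    simp only [Finset.sum_const, Finset.card_univ, Fintype.card_fin, smul_eq_mul]
    show n * finrank ℝ K - a + 1 ≤ _
    omega)
  have hΦ0 : ∀ x, x ≠ 0 → Φ x ≠ 0 := fun x hx h => hx (hΦ (by rw [h, map_zero]))
  have hΨ0 : ∀ x, x ≠ 0 → Ψ x ≠ 0 := fun x hx h => hx (hΨ (by rw [h, map_zero]))
  have hΦc : Continuous Φ := Φ.continuous_of_finiteDimensional
  have hΨc : Continuous Ψ := Ψ.continuous_of_finiteDimensional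
  have hPc : Continuous P := P.continuous_of_finiteDimensional
  have h1 := multi_odd M hCG hCH hΓ aa (fun _ => true) (l := 0) (by
      rw [hq1, Fintype.sum_bool]
      show a + (n * finrank ℝ K - a) = _
      omega) (fun j => j.elim0)
    (fun y => P (vecMulVec (Φ (y true)) (Ψ (y false)))) (fun _ j => j.elim0) ?_ ?_ ?_ ?_ ?_ ?_
  · rw [hq1, cnum_two (n * finrank ℝ K) a aa rfl rfl] at h1
    exact h1
  · refine (hPc.comp ?_).continuousOn
    refine Continuous.matrix_vecMulVec (hΦc.comp (continuous_apply true))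
      (hΨc.comp (continuous_apply false))
  · exact (continuous_of_const fun _ _ => funext fun j => j.elim0).continuousOn
  · intro y _
    exact (D.mem _).2 ⟨_, rfl⟩
  · intro y _ i
    rw [if_pos rfl, ← map_neg]
    congr 1
    cases i with
    | true =>
      rw [Function.update_self, Function.update_of_ne (by decide), map_neg]
      ext i j
      simp only [vecMulVec_apply, Matrix.neg_apply, Pi.neg_apply, neg_mul]
    | false =>
      rw [Function.update_self, Function.update_of_ne (by decide), map_neg]
      ext i j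
      simp only [vecMulVec_apply, Matrix.neg_apply, Pi.neg_apply, mul_neg]
  · intro y _ i j
    exact j.elim0
  · intro y hy _
    refine ⟨?_, ?_⟩
    · intro h0
      exact vecMulVec_ne_zero' (hΦ0 _ (hy true)) (hΨ0 _ (hy false)) (D.inj (h0.trans (map_zero P).symm))
    · obtain ⟨U, hU, y', hy'⟩ := rank_one_conj hu (Φ (y true)) (Ψ (y false))
      obtain ⟨g, hg, hg1, hg2⟩ := D.conj U 1 hU (by rw [conjTranspose_one, Matrix.one_mul])
      refine ⟨⟨g, hg⟩, hg1, P (vecMulVec u y'), (h _).2 ⟨y', rfl⟩, ?_⟩
      show _ = (g : Matrix (Fin N) (Fin N) ℝ) * P (vecMulVec u y') *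
        (g : Matrix (Fin N) (Fin N) ℝ)ᵀ
      rw [hg2, conjTranspose_one, Matrix.mul_one, ← hy']

end Pool.Agent.Helper43.ZT
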