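import Pool.Agent.Helper43.ZT.T

set_option autoImplicit false

/-!
# Sums over flags, twisted: standard functions

The blocks are `none` and `some i`; the identification of the boundary for the block `some i`
negates the block `some i`, and the block `none` if `tw i` is true.
-/

namespace Pool.Agent.Helper43.ZT

open Finset Pool.Agent.Helper29.ZBU

variable {κ ι : Type} [Fintype κ] [DecidableEq κ] [Fintype ι] [DecidableEq ι] {d N : ℕ}

/-- A coordinate of the block `b` is negated by the identification `i`. -/
def tb (tw : ι → Bool) (i b : Option ι) : Bool :=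
  decide (b = i) || (decide (b = none) && (i.elim true tw))

/-- The coordinate `k` is negated by the identification `i`. -/
def tA (β : κ → Option ι) (tw : ι → Bool) (i : Option ι) (k : κ) : Bool := tb tw i (β k)

/-- The character of the coordinates of the block `b`. -/
def tchi (tw : ι → Bool) (b i : Option ι) : ZMod 2 := if tb tw i b = true then 1 else 0

theorem tA_self (β : κ → Option ι) (tw : ι → Bool) (k : κ) : tA β tw (β k) k = true := by
  simp [tA, tb]

theorem tb_some (tw : ι → Bool) (i : Option ι) (j : ι) :
    tb tw i (some j) = decide (some j = i) := by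
  simp [tb]

theorem tb_none_some (tw : ι → Bool) (i : ι) : tb tw (some i) none = tw i := by
  simp [tb]

theorem tb_none_none (tw : ι → Bool) : tb tw none none = true := by
  simp [tb]

theorem tchi_some (tw : ι → Bool) (j : ι) : tchi tw (some j) = Pi.single (some j) 1 := by
  funext i
  unfold tchi
  rw [tb_some]
  by_cases h : some j = i
  · subst h
    simp
  · rw [Pi.single_eq_of_ne (fun h' => h h'.symm)]
    simp [h]

omit [Fintype κ] [DecidableEq κ] [Fintype ι] [DecidableEq ι] in
theorem predA {ι' : Type} (β : κ → ι') (A : ι' → κ → Bool) (N : ℕ) (i i' : ι') (x : κ → ℤ) :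
    (fun k => β k = i ∧ |negA A i' x k| = 2 * (N : ℤ)) =
      fun k => β k = i ∧ |x k| = 2 * (N : ℤ) := by
  funext k
  unfold negA
  by_cases h : A i' k = true
  · rw [if_pos h, abs_neg]
  · rw [if_neg h]

omit [Fintype κ] [DecidableEq κ] [Fintype ι] [DecidableEq ι] in
theorem bd_negA {ι' : Type} (β : κ → ι') (A : ι' → κ → Bool) (N : ℕ) (i i' : ι') (x : κ → ℤ) :
    Bd β N i (negA A i' x) ↔ Bd β N i x := by
  unfold Bd
  have h := predA β A N i i' x
  constructor
  · rintro ⟨k, hk⟩
    exact ⟨k, by rw [← congrFun h k]; exact hk⟩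
  · rintro ⟨k, hk⟩
    exact ⟨k, by rw [congrFun h k]; exact hk⟩

omit [Fintype ι] [DecidableEq ι] in
theorem rho_negA_true {ι' : Type} (β : κ → ι') (A : ι' → κ → Bool) (hN : 0 < N) {i i' : ι'}
    {x : κ → ℤ} (h : Bd β N i x) (hA : ∀ k, β k = i → A i' k = true) :
    rho β N i (negA A i' x) = rho β N i x + 1 := by
  classical
  unfold rho
  rw [predA]
  unfold rho'
  have h' : ∃ k, β k = i ∧ |x k| = 2 * (N : ℤ) := h
  rw [dif_pos h', dif_pos h']
  obtain ⟨h1, h2⟩ := h'.choose_spec
  have h3 : negA A i' x h'.choose = - x h'.choose := by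
    unfold negA
    rw [if_pos (hA _ h1)]
  rw [h3]
  have hN' : (0 : ℤ) < N := by exact_mod_cast hN
  by_cases h4 : x h'.choose < 0
  · rw [if_neg (by omega), if_pos h4]
    decide
  · rw [if_neg h4]
    have h5 : x h'.choose ≠ 0 := by
      intro h0
      rw [h0, abs_zero] at h2
      omega
    rw [if_pos (by omega)]
    decide

omit [Fintype ι] [DecidableEq ι] in
theorem rho_negA_false {ι' : Type} (β : κ → ι') (A : ι' → κ → Bool) {i i' : ι'}
    (x : κ → ℤ) (hA : ∀ k, β k = i → A i' k = false) :
    rho β N i (negA A i' x) = rho β N i x := by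
  classical
  unfold rho
  rw [predA]
  unfold rho'
  by_cases h' : ∃ k, β k = i ∧ |x k| = 2 * (N : ℤ)
  · rw [dif_pos h', dif_pos h']
    obtain ⟨h1, h2⟩ := h'.choose_spec
    have h3 : negA A i' x h'.choose = x h'.choose := by
      unfold negA
      rw [if_neg (by rw [hA _ h1]; exact Bool.false_ne_true)]
    rw [h3]
  · rw [dif_neg h', dif_neg h']

/-- The sum of the signs of the boundary coordinates of the twisting blocks. -/
noncomputable def sw (β : κ → Option ι) (tw : ι → Bool) (N : ℕ) (x : κ → ℤ) : ZMod 2 :=
  ∑ i, if tw i = true then rho β N (some i) x else 0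

open Classical in
/-- The standard function of the identification `i`. -/
noncomputable def ef (β : κ → Option ι) (tw : ι → Bool) (N : ℕ) (i : Option ι) (x : κ → ℤ) :
    ZMod 2 :=
  match i with
  | none => if Bd β N none x then rho β N none x + sw β tw N x else 0
  | some i => rho β N (some i) x

open Classical in
/-- The tie break for the coordinates of the block `b`. -/
noncomputable def tie (β : κ → Option ι) (tw : ι → Bool) (N : ℕ) (b : Option ι) (x : κ → ℤ) :
    ZMod 2 :=
  match b with
  | none => if Bd β N none x then rho β N none x else sw β tw N x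
  | some i => rho β N (some i) x

/-- The sign of the coordinate `k`. -/
noncomputable def sgA (β : κ → Option ι) (tw : ι → Bool) (N : ℕ) (k : κ) (x : κ → ℤ) : ZMod 2 :=
  if x k < 0 then 1 else if 0 < x k then 0 else tie β tw N (β k) x

theorem rho_some_negA (β : κ → Option ι) (tw : ι → Bool) (hN : 0 < N) (j : ι) (i' : Option ι)
    (x : κ → ℤ) (h : Bd β N i' x) :
    rho β N (some j) (negA (tA β tw) i' x) = rho β N (some j) x +
      (Pi.single (some j) 1 : Option ι → ZMod 2) i' := by
  by_cases hi : some j = i'
  · subst hi
    rw [Pi.single_eq_same, rho_negA_true β _ hN h]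
    intro k hk
    rw [← hk]
    exact tA_self β tw k
  · rw [Pi.single_eq_of_ne (fun h' => hi h'.symm), add_zero, rho_negA_false]
    intro k hk
    unfold tA
    rw [hk, tb_some]
    simp [hi]

theorem sw_negA (β : κ → Option ι) (tw : ι → Bool) (hN : 0 < N) (i' : Option ι)
    (x : κ → ℤ) (h : Bd β N i' x) :
    sw β tw N (negA (tA β tw) i' x) = sw β tw N x + i'.elim 0 (fun i => if tw i = true then 1 else 0) := by
  unfold sw
  have h1 : ∀ i, (if tw i = true then rho β N (some i) (negA (tA β tw) i' x) else 0) =
      (if tw i = true then rho β N (some i) x else 0) +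
        (if tw i = true then (Pi.single (some i) 1 : Option ι → ZMod 2) i' else 0) := by
    intro i
    by_cases ht : tw i = true
    · rw [if_pos ht, if_pos ht, if_pos ht, rho_some_negA β tw hN i i' x h]
    · rw [if_neg ht, if_neg ht, if_neg ht, add_zero]
  simp only [h1]
  rw [Finset.sum_add_distrib]
  congr 1
  cases i' with
  | none =>
    refine Finset.sum_eq_zero fun i _ => ?_
    rw [Pi.single_eq_of_ne (by simp)]
    simp
  | some i' =>
    rw [Finset.sum_eq_single i']
    · rw [Pi.single_eq_same]
      rfl
    · intro i _ hi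
      rw [Pi.single_eq_of_ne (fun h => hi (Option.some.inj h).symm)]
      simp
    · intro h'
      exact absurd (mem_univ _) h'

theorem eqv_ef (β : κ → Option ι) (tw : ι → Bool) (hN : 0 < N) (i : Option ι) :
    EqvA β (tA β tw) N (Pi.single i 1) (ef β tw N i) := by
  classical
  intro i' x h
  cases i with
  | some i => exact rho_some_negA β tw hN i i' x h
  | none =>
    show (if Bd β N none (negA (tA β tw) i' x) then rho β N none (negA (tA β tw) i' x) +
        sw β tw N (negA (tA β tw) i' x) else 0) =
      (if Bd β N none x then rho β N none x + sw β tw N x else 0) + _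
    by_cases hb : Bd β N none x
    · rw [if_pos ((bd_negA β _ N none i' x).2 hb), if_pos hb, sw_negA β tw hN i' x h]
      cases i' with
      | none =>
        rw [rho_negA_true β _ hN hb, Pi.single_eq_same]
        · show _ + 1 + (_ + 0) = _
          ring
        · intro k hk
          unfold tA
          rw [hk, tb_none_none]
      | some i' =>
        rw [Pi.single_eq_of_ne (by simp), add_zero]
        by_cases ht : tw i' = true
        · rw [rho_negA_true β _ hN hb]
          · show rho β N none x + 1 + (sw β tw N x + if tw i' = true then 1 else 0) = _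
            rw [if_pos ht]
            have : ∀ a b : ZMod 2, a + 1 + (b + 1) = a + b := by decide
            exact this _ _
          · intro k hk
            unfold tA
            rw [hk, tb_none_some, ht]
        · rw [rho_negA_false]
          · show rho β N none x + (sw β tw N x + if tw i' = true then 1 else 0) = _
            rw [if_neg ht, add_zero]
          · intro k hk
            unfold tA
            rw [hk, tb_none_some]
            simpa using ht
    · rw [if_neg (fun h' => hb ((bd_negA β _ N none i' x).1 h')), if_neg hb]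
      have hi : i' ≠ none := by
        rintro rfl
        exact hb h
      rw [Pi.single_eq_of_ne hi, add_zero]

theorem eqv_tie (β : κ → Option ι) (tw : ι → Bool) (hN : 0 < N) (b : Option ι) :
    EqvA β (tA β tw) N (tchi tw b) (tie β tw N b) := by
  classical
  intro i' x h
  cases b with
  | some i =>
    rw [tchi_some]
    exact rho_some_negA β tw hN i i' x h
  | none =>
    show (if Bd β N none (negA (tA β tw) i' x) then rho β N none (negA (tA β tw) i' x) else
        sw β tw N (negA (tA β tw) i' x)) =
      (if Bd β N none x then rho β N none x else sw β tw N x) + _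
    by_cases hb : Bd β N none x
    · rw [if_pos ((bd_negA β _ N none i' x).2 hb), if_pos hb]
      unfold tchi
      by_cases ht : tb tw i' none = true
      · rw [if_pos ht, rho_negA_true β _ hN hb]
        intro k hk
        unfold tA
        rw [hk, ht]
      · rw [if_neg ht, add_zero, rho_negA_false]
        intro k hk
        unfold tA
        rw [hk]
        simpa using ht
    · rw [if_neg (fun h' => hb ((bd_negA β _ N none i' x).1 h')), if_neg hb,
        sw_negA β tw hN i' x h]
      congr 1
      cases i' with
      | none => exact absurd h hb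
      | some i' =>
        unfold tchi
        rw [tb_none_some]
        rfl

theorem eqv_sgA (β : κ → Option ι) (tw : ι → Bool) (hN : 0 < N) (k : κ) :
    EqvA β (tA β tw) N (tchi tw (β k)) (sgA β tw N k) := by
  intro i' x h
  unfold sgA
  rw [eqv_tie β tw hN (β k) i' x h]
  unfold tchi
  have h01 : (negA (tA β tw) i' x k) = if tb tw i' (β k) = true then -x k else x k := rfl
  rw [h01]
  by_cases hi : tb tw i' (β k) = true
  · rw [if_pos hi, if_pos hi]
    rcases lt_trichotomy (x k) 0 with h4 | h4 | h4
    · rw [if_neg (by omega), if_pos (by omega), if_pos h4]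
      decide
    · rw [if_neg (by omega), if_neg (by omega), if_neg (by omega), if_neg (by omega)]
    · rw [if_pos (by omega), if_neg (by omega), if_pos h4]
      decide
  · rw [if_neg hi, if_neg hi, add_zero, add_zero]

/-- A change of the sign of the coordinate `k` along an edge of a chain. -/
theorem sgA_change (β : κ → Option ι) (tw : ι → Bool) (τ : Flag κ d) (k : κ) (j : ℕ)
    (h : sgA β tw N k (vtx τ j) + sgA β tw N k (vtx τ (j + 1)) ≠ 0) :
    τ.1 k + bi (τ.2.2 k) = 0 ∧ j ≤ (τ.2.1.symm k : ℕ) := by
  have hne : sgA β tw N k (vtx τ j) ≠ sgA β tw N k (vtx τ (j + 1)) := by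
    intro he
    rw [he] at h
    exact h (CharTwo.add_self_eq_zero _)
  by_contra hc
  apply hne
  by_cases hj : j ≤ (τ.2.1.symm k : ℕ)
  · have h0 : τ.1 k + bi (τ.2.2 k) ≠ 0 := fun h0 => hc ⟨h0, hj⟩
    have h1 : vtx τ j k = 2 * (τ.1 k + bi (τ.2.2 k)) := by
      unfold vtx
      rw [if_neg (by omega)]
    have hb : bi (τ.2.2 k) = 0 ∨ bi (τ.2.2 k) = 1 := by
      cases τ.2.2 k <;> simp [bi]
    have h2 : vtx τ (j + 1) k = 2 * τ.1 k + 1 ∨
        vtx τ (j + 1) k = 2 * (τ.1 k + bi (τ.2.2 k)) := by
      unfold vtx
      by_cases h3 : (τ.2.1.symm k : ℕ) < j + 1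
      · left
        rw [if_pos h3]
      · right
        rw [if_neg h3]
    unfold sgA
    by_cases h4 : vtx τ j k < 0
    · rw [if_pos h4, if_pos (by omega)]
    · have h5 : 0 < vtx τ j k := by omega
      rw [if_neg h4, if_pos h5, if_neg (by omega), if_pos (by omega)]
  · have h1 : vtx τ j k = 2 * τ.1 k + 1 := by
      unfold vtx
      rw [if_pos (by omega)]
    have h2 : vtx τ (j + 1) k = 2 * τ.1 k + 1 := by
      unfold vtx
      rw [if_pos (by omega)]
    unfold sgA
    by_cases h4 : vtx τ j k < 0
    · rw [if_pos h4, if_pos (by omega)]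
    · have h5 : 0 < vtx τ j k := by omega
      rw [if_neg h4, if_pos h5, if_neg (by omega), if_pos (by omega)]

omit [Fintype ι] [DecidableEq ι] in
/-- A vertex of a chain on the boundary of a block. -/
theorem bd_vtx {ι' : Type} (β : κ → ι') (hN : 0 < N) {τ : Flag κ d} {i : ι'} {j : ℕ}
    (h : Bd β N i (vtx τ j)) : ∃ k, β k = i ∧ |τ.1 k + bi (τ.2.2 k)| = (N : ℤ) := by
  have hN' : (0 : ℤ) < N := by exact_mod_cast hN
  obtain ⟨k, h1, h2⟩ := h
  refine ⟨k, h1, ?_⟩
  unfold vtx at h2
  by_cases h3 : (τ.2.1.symm k : ℕ) < j
  · rw [if_pos h3] at h2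
    exfalso
    rcases abs_cases (2 * τ.1 k + 1) with h4 | h4 <;> omega
  · rw [if_neg h3, abs_mul] at h2
    have : |(2 : ℤ)| = 2 := rfl
    rw [this] at h2
    omega

/-- A change of a standard function along an edge of a chain. -/
theorem ef_change (β : κ → Option ι) (tw : ι → Bool) (hN : 0 < N) {τ : Flag κ d} {i : Option ι}
    {j : ℕ} (h : ef β tw N i (vtx τ j) + ef β tw N i (vtx τ (j + 1)) ≠ 0) :
    ∃ k, β k = i ∧ |τ.1 k + bi (τ.2.2 k)| = (N : ℤ) := by
  classical
  by_contra hc
  apply h
  have h1 : ∀ l : ℕ, ¬ Bd β N i (vtx τ l) := fun l h' => hc (bd_vtx β hN h')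
  cases i with
  | some i =>
    show rho β N (some i) _ + rho β N (some i) _ = 0
    rw [rho_zero β (h1 _), rho_zero β (h1 _), add_zero]
  | none =>
    show (if Bd β N none (vtx τ j) then _ else 0) + (if Bd β N none (vtx τ (j + 1)) then _ else 0) = 0
    rw [if_neg (h1 _), if_neg (h1 _), add_zero]

theorem tie_zero (β : κ → Option ι) (tw : ι → Bool) {x : κ → ℤ} (b : Option ι)
    (h : ∀ i, ¬ Bd β N i x) : tie β tw N b x = 0 := by
  classical
  cases b with
  | some i => exact rho_zero β (h _)
  | none =>
    show (if Bd β N none x then _ else sw β tw N x) = 0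
    rw [if_neg (h _)]
    refine Finset.sum_eq_zero fun i _ => ?_
    rw [rho_zero β (h _)]
    simp

end Pool.Agent.Helper43.ZT
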